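import Pool.Agent.K7.H54.SG.Fam
import Pool.Agent.TH841.PT.Fin1

/-!
# Project SG: the 2-Selmer groups of the twists by `h x`, the primes of `h` being arbitrary
-/

set_option autoImplicit false
set_option linter.all false

namespace Pool.Agent.K7.H54.SG

open Finset Pool.Agent.W262.RK Pool.Agent.W307.RT Pool.Agent.W307.RS Pool.Agent.TH841.PT
open Pool.Agent.W307.SE (SN Sel SN_nonneg)

open Classical in
/-- the types with only one type -/
noncomputable def tyU (h : ℤ) (_ : Unit) (p : ℕ) : Option Unit :=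
  if (p : ℤ) ∣ h then none else some ()

lemma tyU_some {h : ℤ} {j : Unit} {p : ℕ} : tyU h j p = some () ↔ ¬ (p : ℤ) ∣ h := by
  unfold tyU
  split_ifs with h1 <;> simp [h1]

/-- the primes with a negative sign -/
noncomputable def ngU (h x : ℤ) (s : ℕ) : Finset ℕ :=
  s.primeFactors.filter (fun p => jacobiSym (x / p) p = - jacobiSym h p)

/-- the product of the primes in `(z, y]` prime to `h` that divide `x` once -/
noncomputable def s1U (h : ℤ) (z y : ℕ) (x : ℤ) : ℕ :=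
  S1 z y (prw (tyU h) z (fun _ : Unit => x)) ((), ())

/-- the product of the primes in `(z, y]` prime to `h` that divide `x` twice -/
noncomputable def s2U (h : ℤ) (z y : ℕ) (x : ℤ) : ℕ :=
  S2 z y (prw (tyU h) z (fun _ : Unit => x)) ((), ())

lemma s1U_dvd {h x : ℤ} {z y : ℕ} (hx : x ≠ 0) {p : ℕ} (hp : p.Prime) :
    p ∣ s1U h z y x ↔ p ∈ PS z y ∧ (p : ℤ) ∣ x ∧ ¬ (p : ℤ) ^ 2 ∣ x ∧ ¬ (p : ℤ) ∣ h := by
  unfold s1U
  rw [Pool.Agent.W29.RT.dvd_S1 hp]
  constructor
  · rintro ⟨h1, h2, h3⟩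
    have hz := (mem_PS.1 h1).1.1
    have h4 := (prw_dvd (fun _ => hx) ((), ()) hp hz).1 h2
    rw [prw_pow (fun _ => hx) ((), ()) hp hz two_ne_zero] at h3
    exact ⟨h1, h4.1, fun h5 => h3 ⟨h5, h4.2⟩, tyU_some.1 h4.2⟩
  · rintro ⟨h1, h2, h3, h4⟩
    have hz := (mem_PS.1 h1).1.1
    rw [prw_dvd (fun _ => hx) ((), ()) hp hz, prw_pow (fun _ => hx) ((), ()) hp hz two_ne_zero]
    exact ⟨h1, ⟨h2, tyU_some.2 h4⟩, fun h5 => h3 h5.1⟩

lemma s2U_dvd {h x : ℤ} {z y : ℕ} (hx : x ≠ 0) {p : ℕ} (hp : p.Prime) :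
    p ∣ s2U h z y x ↔ p ∈ PS z y ∧ (p : ℤ) ^ 2 ∣ x ∧ ¬ (p : ℤ) ∣ h := by
  unfold s2U
  rw [Pool.Agent.W29.RT.dvd_S2 hp]
  constructor
  · rintro ⟨h1, h3⟩
    have hz := (mem_PS.1 h1).1.1
    rw [prw_pow (fun _ => hx) ((), ()) hp hz two_ne_zero] at h3
    exact ⟨h1, h3.1, tyU_some.1 h3.2⟩
  · rintro ⟨h1, h3, h4⟩
    have hz := (mem_PS.1 h1).1.1
    rw [prw_pow (fun _ => hx) ((), ()) hp hz two_ne_zero]
    exact ⟨h1, h3, tyU_some.2 h4⟩

lemma s1U_PP (h x : ℤ) (z y : ℕ) : s1U h z y x ∣ PP z y := by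
  unfold s1U S1 PP
  exact prod_dvd_prod_of_subset _ _ _ (filter_subset _ _)

lemma s2U_PP (h x : ℤ) (z y : ℕ) : s2U h z y x ∣ PP z y := by
  unfold s2U S2 PP
  exact prod_dvd_prod_of_subset _ _ _ (filter_subset _ _)

/-- the number of the other primes -/
lemma badU {a : Fin 3 → ℤ} (ha : ∀ k, a k ≠ 0) {h x : ℤ} (hh : h ≠ 0) (hx : x ≠ 0)
    {z y D : ℕ} (hz : 4 ≤ z) (hza : ∀ k, (a k).natAbs ≤ z)
    (hsz : x.natAbs < (y + 1) ^ D) :
    ((2 * (a 0 * (h * x)) * (a 1 * (h * x)) * (a 2 * (h * x))).natAbs.primeFactors.filter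
      (fun q => ¬ q ∣ s1U h z y x)).card ≤
        z + h.natAbs.primeFactors.card + D + (s2U h z y x).primeFactors.card := by
  have hsub : ((2 * (a 0 * (h * x)) * (a 1 * (h * x)) *
      (a 2 * (h * x))).natAbs.primeFactors.filter (fun q => ¬ q ∣ s1U h z y x)) ⊆
      ((Icc 1 z ∪ h.natAbs.primeFactors) ∪ x.natAbs.primeFactors.filter (y < ·)) ∪
        (s2U h z y x).primeFactors := by
    intro q hq
    rw [mem_filter] at hq
    have hp := Nat.prime_of_mem_primeFactors hq.1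
    have hdv := Nat.dvd_of_mem_primeFactors hq.1
    have hqi : Prime (q : ℤ) := Nat.prime_iff_prime_int.1 hp
    rw [mem_union, mem_union, mem_union, mem_Icc]
    rcases Nat.lt_or_ge z q with hzq | h'
    swap
    · exact Or.inl (Or.inl (Or.inl ⟨hp.one_lt.le, h'⟩))
    · have hdv2 : (q : ℤ) ∣ 2 * (a 0 * (h * x)) * (a 1 * (h * x)) * (a 2 * (h * x)) :=
        Int.natCast_dvd.2 hdv
      have ha' : ∀ k, ¬ (q : ℤ) ∣ a k := by
        intro k hk
        have h1 := Nat.le_of_dvd (Int.natAbs_pos.2 (ha k)) (Int.natCast_dvd.1 hk)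
        have h2 := hza k
        omega
      have h2' : ¬ (q : ℤ) ∣ 2 := by
        intro h3
        have h4 : q ∣ 2 := by exact_mod_cast h3
        have h5 := Nat.le_of_dvd (by norm_num) h4
        omega
      have hk : (q : ℤ) ∣ h * x := by
        rcases hqi.dvd_or_dvd hdv2 with h1 | h1
        · rcases hqi.dvd_or_dvd h1 with h2 | h2
          · rcases hqi.dvd_or_dvd h2 with h3 | h3
            · exact absurd h3 h2'
            · exact (hqi.dvd_or_dvd h3).resolve_left (ha' 0)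
          · exact (hqi.dvd_or_dvd h2).resolve_left (ha' 1)
        · exact (hqi.dvd_or_dvd h1).resolve_left (ha' 2)
      by_cases hqh : (q : ℤ) ∣ h
      · left; left; right
        exact Nat.mem_primeFactors.2 ⟨hp, Int.natCast_dvd.1 hqh, Int.natAbs_ne_zero.2 hh⟩
      have hqx := (hqi.dvd_or_dvd hk).resolve_left hqh
      rcases Nat.lt_or_ge y q with hyq | hyq
      · left; right
        rw [mem_filter, Nat.mem_primeFactors]
        exact ⟨⟨hp, Int.natCast_dvd.1 hqx, Int.natAbs_ne_zero.2 hx⟩, hyq⟩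
      · right
        have hPS : q ∈ PS z y := mem_PS.2 ⟨⟨hzq, hyq⟩, hp⟩
        have hsq : (q : ℤ) ^ 2 ∣ x := by
          by_contra hcon
          exact hq.2 ((s1U_dvd hx hp).2 ⟨hPS, hqx, hcon, hqh⟩)
        exact Nat.mem_primeFactors.2 ⟨hp, (s2U_dvd hx hp).2 ⟨hPS, hsq, hqh⟩,
          ne_zero_of_dvd_ne_zero (PP_ne_zero z y) (s2U_PP h x z y)⟩
  have hone : (x.natAbs.primeFactors.filter (y < ·)).card ≤ D := by
    set S := x.natAbs.primeFactors.filter (y < ·) with hS
    rcases Nat.eq_zero_or_pos y with rfl | hy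
    · have : x.natAbs < 1 := by simpa using hsz
      have := Int.natAbs_pos.2 hx
      omega
    have h1 : (y + 1) ^ S.card ≤ ∏ q ∈ S, q :=
      Finset.pow_card_le_prod _ _ _ (fun q hq => by
        have := (mem_filter.1 hq).2
        omega)
    have h2 : ∏ q ∈ S, q ∣ x.natAbs :=
      (prod_dvd_prod_of_subset _ _ _ (filter_subset _ _)).trans (Nat.prod_primeFactors_dvd _)
    have h3 : ∏ q ∈ S, q ≤ x.natAbs :=
      Nat.le_of_dvd (Nat.pos_of_ne_zero (Int.natAbs_ne_zero.2 hx)) h2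
    have h4 : (y + 1) ^ S.card < (y + 1) ^ D := (h1.trans h3).trans_lt hsz
    exact ((Nat.pow_lt_pow_iff_right (by omega)).1 h4).le
  refine (card_le_card hsub).trans ((card_union_le _ _).trans (add_le_add
    ((card_union_le _ _).trans (add_le_add ((card_union_le _ _).trans
      (add_le_add ?_ le_rfl)) hone)) le_rfl))
  simp

/-- **the bound of the 2-Selmer group of the twist by `h x`** -/
theorem selU {a : Fin 3 → ℤ} (ha : ∀ k, a k ≠ 0) (ha2 : a 0 - a 1 = a 2) {h x : ℤ}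
    (hh : h ≠ 0) (hx : x ≠ 0) {z y D : ℕ} (hz : 4 ≤ z) (hza : ∀ k, (a k).natAbs ≤ z)
    (hsz : x.natAbs < (y + 1) ^ D) :
    SN (a 0 * (h * x)) (a 1 * (h * x)) ≤
      4 ^ (z + h.natAbs.primeFactors.card + D + (s2U h z y x).primeFactors.card + 2) *
        (NL (s1U h z y x) (LLs (c3 Unit) (fun _ => a) (fun _ => s1U h z y x)
          (ngU h x (s1U h z y x))) : ℝ) := by
  obtain ⟨s, hs⟩ : ∃ s, s = s1U h z y x := ⟨_, rfl⟩
  have hhx : h * x ≠ 0 := mul_ne_zero hh hx
  have hdv := fun {p : ℕ} (hp : p.Prime) => s1U_dvd (h := h) (z := z) (y := y) hx hp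
  rw [← hs] at hdv ⊢
  have hsP : s ∣ PP z y := by rw [hs]; exact s1U_PP h x z y
  have hnκ : ∀ p : ℕ, p.Prime → p ∣ s → ∀ k, ¬ (p : ℤ) ∣ a k := by
    intro p hp hpd k hk
    have h1 := Nat.le_of_dvd (Int.natAbs_pos.2 (ha k)) (Int.natCast_dvd.1 hk)
    have h2 := hza k
    have h3 := (mem_PS.1 ((hdv hp).1 hpd).1).1.1
    omega
  have hp2 : ∀ p : ℕ, p.Prime → p ∣ s → p ≠ 2 := by
    intro p hp hpd
    have h3 := (mem_PS.1 ((hdv hp).1 hpd).1).1.1
    omega
  have eF : a 0 * (h * x) - a 1 * (h * x) = a 2 * (h * x) := by rw [← ha2]; ring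
  have hd := Pool.Agent.W410.FK.seld s
    (LLs (c3 Unit) (fun _ => a) (fun _ => s) (ngU h x s))
    (a 0 * (h * x)) (a 1 * (h * x)) (mul_ne_zero (ha 0) hhx) (mul_ne_zero (ha 1) hhx)
    (fun h1 => mul_ne_zero (ha 2) hhx (by rw [← eF, h1, sub_self]))
    (by
      rw [← Nat.not_even_iff_odd, even_iff_two_dvd]
      intro h1
      exact hp2 2 Nat.prime_two h1 rfl)
    ((PP_squarefree z y).squarefree_of_dvd hsP)
    (fun p hp hpd => by
      have : Fact p.Prime := ⟨hp⟩
      refine ⟨fun j hj => ?_, fun a1 b1 c1 d1 a2 b2 c2 d2 e1 e2 j hj => ?_⟩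
      · exact (Pool.Agent.W342.RK2.xcl _ _ _ p hp (hp2 p hp hpd) (hnκ p hp hpd)).1
      · exact (Pool.Agent.W342.RK2.xcl _ _ _ p hp (hp2 p hp hpd) (hnκ p hp hpd)).2 a1 b1 c1 d1 a2
          b2 c2 d2 (e1 j hj) (e2 j hj))
    (fun p hp hpd u u' hu' hcurve e1 e2 he1 he2 hsq1 hsq2 j hj => by
      have hpp : p.Prime := Fact.out
      obtain ⟨h1, h2, h3, h4⟩ := (hdv hpp).1 hpd
      have hpi : Prime (p : ℤ) := Nat.prime_iff_prime_int.1 hpp
      have hp0 : (p : ℤ) ≠ 0 := hpi.ne_zero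
      refine (Pool.Agent.W307.SE.loclp_of Pool.Agent.W407.SE.ratp) (c3 Unit j) a _ p _ _
        (hp2 p hpp hpd) (hnκ p hpp hpd) ?_ u u' hu' hcurve e1 e2 he1 he2 hsq1 hsq2
      have hk : ∀ k, (p : ℤ) ∣ a k * (h * x) ∧ ¬ (p : ℤ) ^ 2 ∣ a k * (h * x) ∧
          jacobiSym (a k * (a k * (h * x) / p)) p =
            if decide (p ∈ ngU h x s) = true then -1 else 1 := by
        intro k
        refine ⟨(h2.mul_left _).mul_left _, fun h5 => h3 ?_, ?_⟩
        · have h6 : IsCoprime ((p : ℤ) ^ 2) (a k * h) := by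
            apply IsCoprime.pow_left
            apply IsCoprime.mul_right
            · exact (Prime.coprime_iff_not_dvd hpi).2 (hnκ p hpp hpd k)
            · exact (Prime.coprime_iff_not_dvd hpi).2 h4
          have h7 : a k * (h * x) = (a k * h) * x := by ring
          rw [h7] at h5
          exact h6.dvd_of_dvd_mul_left h5
        · obtain ⟨q, hq⟩ := h2
          have e3 : a k * (h * x) / p = a k * (h * q) := by
            rw [hq, show a k * (h * (p * q)) = p * (a k * (h * q)) by ring,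
              Int.mul_ediv_cancel_left _ hp0]
          have e4 : x / p = q := by rw [hq, Int.mul_ediv_cancel_left _ hp0]
          have hqn : ¬ (p : ℤ) ∣ q := by
            intro h5
            apply h3
            rw [hq, sq]
            exact mul_dvd_mul_left _ h5
          rw [e3, show a k * (a k * (h * q)) = (h * q) * (a k) ^ 2 by ring,
            SelXf.jac_sq hpp (hnκ p hpp hpd k), jacobiSym.mul_left]
          have hmem : p ∈ ngU h x s ↔ jacobiSym q p = - jacobiSym h p := by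
            unfold ngU
            rw [mem_filter, e4]
            refine ⟨fun h5 => h5.2, fun h5 => ⟨Nat.mem_primeFactors.2 ⟨hpp, hpd, ?_⟩, h5⟩⟩
            exact ne_zero_of_dvd_ne_zero (PP_ne_zero z y) hsP
          have hjp : ∀ {t : ℤ}, ¬ (p : ℤ) ∣ t → jacobiSym t p = 1 ∨ jacobiSym t p = -1 := by
            intro t ht
            apply jacobiSym.eq_one_or_neg_one
            rw [← Int.isCoprime_iff_gcd_eq_one]
            exact IsCoprime.symm ((Prime.coprime_iff_not_dvd hpi).2 ht)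
          by_cases hm : p ∈ ngU h x s
          · rw [if_pos (decide_eq_true hm), hmem.1 hm]
            rcases hjp h4 with h6 | h6 <;> rw [h6] <;> norm_num
          · rw [if_neg (by simpa using hm)]
            rw [hmem] at hm
            rcases hjp h4 with h6 | h6 <;> rcases hjp hqn with h7 | h7 <;>
              rw [h6, h7] at hm ⊢ <;> simp at hm ⊢
      have h3c : c3 Unit j = 3 := rfl
      unfold LocH
      rw [if_neg (by rw [h3c]; decide), if_neg (by rw [h3c]; decide),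
        if_neg (by rw [h3c]; decide), eF]
      exact ⟨(hk 0).1, (hk 1).1, (hk 0).2.1, (hk 1).2.1, (hk 2).2.1, (hk 0).2.2, (hk 1).2.2,
        (hk 2).2.2⟩)
  rw [eF] at hd
  have hc := badU ha hh hx (y := y) hz hza hsz
  rw [← hs] at hc
  have h1 : SN (a 0 * (h * x)) (a 1 * (h * x)) ≤
      4 ^ (((2 * (a 0 * (h * x)) * (a 1 * (h * x)) *
        (a 2 * (h * x))).natAbs.primeFactors.filter (fun q => ¬ q ∣ s)).card + 2) *
          (NL s (LLs (c3 Unit) (fun _ => a) (fun _ => s) (ngU h x s)) : ℝ) := by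
    have h2 := (Nat.cast_le (α := ℝ)).2 hd.2
    push_cast at h2
    unfold SN
    exact h2
  refine h1.trans (mul_le_mul_of_nonneg_right ?_ (Nat.cast_nonneg _))
  exact pow_le_pow_right₀ (by norm_num) (by omega)

end Pool.Agent.K7.H54.SG
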