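import Pool.Agent.K7.H54.SG.Avg
import Pool.Agent.K7.H54.SG.BRnk
import Pool.Agent.K7.H54.HR.Mob
import Pool.Agent.K7.H54.HR.Frm

/-!
# Project SG: the values of one binary form
-/

set_option autoImplicit false
set_option linter.all false

namespace Pool.Agent.K7.H54.SG

open Finset Polynomial Pool.Agent.W262.RK Pool.Agent.W307.RT Pool.Agent.W307.RS
open Pool.Agent.TH841.PT
open Pool.Agent.K7.H54.HR
open Pool.Agent.H474R2.PG (rho)

open Classical in
/-- the number of the points of a line with a property modulo `p` -/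
lemma card_lineP {p : ℕ} (hp : p.Prime) {w : ℤ} (N : ℤ) (hw : ¬ (p : ℤ) ∣ w) (P Q : ℤ → Prop)
    (key : ∀ x t : ℤ, (p : ℤ) ∣ x - t * w → (P x ↔ Q t))
    (key2 : ∀ t t' : ℤ, (p : ℤ) ∣ t - t' → (Q t ↔ Q t')) :
    ((range p).filter (fun n : ℕ => P ((n : ℤ) - N))).card =
      ((range p).filter (fun n : ℕ => Q (n : ℤ))).card := by
  have hp0 : (0 : ℤ) < p := by exact_mod_cast hp.pos
  have hpi := Nat.prime_iff_prime_int.1 hp
  obtain ⟨v, hv⟩ := exists_ratio hp 1 1 hw
  rw [pow_one] at hv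
  have hr : ∀ a : ℤ, (((a % p).toNat : ℕ) : ℤ) = a % p := fun a =>
    Int.toNat_of_nonneg (Int.emod_nonneg a hp0.ne')
  have hr2 : ∀ a : ℤ, (a % p).toNat < p := by
    intro a
    have := Int.emod_lt_of_pos a hp0
    have := hr a
    omega
  have hm : ∀ a : ℤ, (p : ℤ) ∣ a - a % p := fun a =>
    ⟨a / p, by have := Int.emod_add_mul_ediv a p; linarith⟩
  refine card_bij' (fun n _ => ((((n : ℤ) - N) * v) % p).toNat)
    (fun t _ => (((t : ℤ) * w + N) % p).toNat) ?_ ?_ ?_ ?_
  · intro n hn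
    obtain ⟨h1, h2⟩ := mem_filter.1 hn
    rw [mem_filter, mem_range, hr]
    refine ⟨hr2 _, (key2 _ _ (hm _)).1 ((key _ _ ?_).1 h2)⟩
    have : ((n : ℤ) - N) - ((n : ℤ) - N) * v * w = ((n : ℤ) - N) * (1 - v * w) := by ring
    rw [this]
    exact hv.mul_left _
  · intro t ht
    obtain ⟨h1, h2⟩ := mem_filter.1 ht
    rw [mem_filter, mem_range, hr]
    refine ⟨hr2 _, (key _ (t : ℤ) ?_).2 h2⟩
    have h3 := hm ((t : ℤ) * w + N)
    have : ((t : ℤ) * w + N) % p - N - (t : ℤ) * w =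
      -(((t : ℤ) * w + N) - ((t : ℤ) * w + N) % p) := by ring
    rw [this]
    exact h3.neg_right
  · intro n hn
    have h1 := mem_range.1 (mem_filter.1 hn).1
    have h2 := hr (((n : ℤ) - N) * v)
    have h3 := hr ((((((n : ℤ) - N) * v) % p).toNat : ℤ) * w + N)
    have h4 : (((((((((n : ℤ) - N) * v) % p).toNat : ℕ) : ℤ) * w + N) % p).toNat : ℤ) = n := by
      rw [h3, h2]
      have h5 : (p : ℤ) ∣ ((((n : ℤ) - N) * v) % p * w + N) - n := by
        have h6 := hm (((n : ℤ) - N) * v)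
        have : ((((n : ℤ) - N) * v) % p * w + N) - n =
            -((((n : ℤ) - N) * v - (((n : ℤ) - N) * v) % p) * w) -
              ((n : ℤ) - N) * (1 - v * w) := by ring
        rw [this]
        exact dvd_sub ((h6.mul_right w).neg_right) (hv.mul_left _)
      rw [(Int.emod_emod_of_dvd _ dvd_rfl).symm, Int.emod_emod_of_dvd _ dvd_rfl,
        (Int.emod_eq_emod_iff_emod_sub_eq_zero).2 (Int.emod_eq_zero_of_dvd h5),
        Int.emod_eq_of_lt (by positivity) (by exact_mod_cast h1)]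
    exact_mod_cast h4
  · intro t ht
    have h1 := mem_range.1 (mem_filter.1 ht).1
    have h2 := hr ((t : ℤ) * w + N)
    have h3 := hr ((((((t : ℤ) * w + N) % p).toNat : ℤ) - N) * v)
    have h4 : (((((((((t : ℤ) * w + N) % p).toNat : ℕ) : ℤ) - N) * v) % p).toNat : ℤ) = t := by
      rw [h3, h2]
      have h5 : (p : ℤ) ∣ ((((t : ℤ) * w + N) % p - N) * v) - t := by
        have h6 := hm ((t : ℤ) * w + N)
        have : ((((t : ℤ) * w + N) % p - N) * v) - t =
            -((((t : ℤ) * w + N) - ((t : ℤ) * w + N) % p) * v) - (t : ℤ) * (1 - v * w) := by ring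
        rw [this]
        exact dvd_sub ((h6.mul_right v).neg_right) (hv.mul_left _)
      rw [(Int.emod_emod_of_dvd _ dvd_rfl).symm, Int.emod_emod_of_dvd _ dvd_rfl,
        (Int.emod_eq_emod_iff_emod_sub_eq_zero).2 (Int.emod_eq_zero_of_dvd h5),
        Int.emod_eq_of_lt (by positivity) (by exact_mod_cast h1)]
    exact_mod_cast h4

/-- the root of a value -/
lemma root_hv {g : ℤ[X]} {p : ℕ} (hp : p.Prime) {x y t : ℤ} (hy : ¬ (p : ℤ) ∣ y) (k : ℕ)
    (ht : (p : ℤ) ^ k ∣ x - t * y) :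
    (p : ℤ) ^ k ∣ hv g.natDegree g x y ↔ (p : ℤ) ^ k ∣ g.eval t := by
  have := root_of (f := fun _ : Unit => g) hp hy k ht ()
  exact this

lemma dvd_congr {m x y : ℤ} (h : m ∣ x - y) : m ∣ x ↔ m ∣ y := by
  constructor
  · intro h2
    have := dvd_sub h2 h
    rwa [sub_sub_cancel] at this
  · intro h2
    have := dvd_add h h2
    rwa [sub_add_cancel] at this

/-- a simple root has only one lift for every value -/
lemma hens_hv {g : ℤ[X]} {p : ℕ} (hp : p.Prime) {w x x' : ℤ} (hw : ¬ (p : ℤ) ∣ w)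
    (hs : ∀ t : ℤ, (p : ℤ) ∣ g.eval t → ¬ (p : ℤ) ∣ g.derivative.eval t)
    (hxx : (p : ℤ) ∣ x - x') (h1 : (p : ℤ) ∣ hv g.natDegree g x w)
    (h2 : (p : ℤ) ^ 2 ∣ hv g.natDegree g x w - hv g.natDegree g x' w) :
    (p : ℤ) ^ 2 ∣ x - x' := by
  have hpi := Nat.prime_iff_prime_int.1 hp
  obtain ⟨t, ht⟩ := exists_ratio hp 2 x hw
  obtain ⟨t', ht'⟩ := exists_ratio hp 2 x' hw
  have hp2 : (p : ℤ) ∣ (p : ℤ) ^ 2 := dvd_pow_self _ two_ne_zero
  have e0 : (p : ℤ) ∣ g.eval t := by
    have := (root_hv (g := g) hp hw 1 (by rw [pow_one]; exact hp2.trans ht)).1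
      (by rw [pow_one]; exact h1)
    rwa [pow_one] at this
  have e2 : (p : ℤ) ^ 2 ∣ w ^ g.natDegree * (g.eval t' - g.eval t) := by
    have a1 := hv_red (f := g) (n := g.natDegree) le_rfl ht
    have a2 := hv_red (f := g) (n := g.natDegree) le_rfl ht'
    have : w ^ g.natDegree * (g.eval t' - g.eval t) =
        (hv g.natDegree g x w - w ^ g.natDegree * g.eval t) -
        (hv g.natDegree g x' w - w ^ g.natDegree * g.eval t') -
        (hv g.natDegree g x w - hv g.natDegree g x' w) := by ring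
    rw [this]
    exact dvd_sub (dvd_sub a1 a2) h2
  have e2' : (p : ℤ) ^ 2 ∣ g.eval t' - g.eval t := by
    have hc : IsCoprime ((p : ℤ) ^ 2) (w ^ g.natDegree) :=
      ((hpi.coprime_iff_not_dvd).2 hw).pow
    exact hc.dvd_of_dvd_mul_left e2
  have e3 : (p : ℤ) ∣ (t' - t) * w := by
    have h5 : (t' - t) * w = (x - t * w) - (x' - t' * w) - (x - x') := by ring
    rw [h5]
    exact dvd_sub (dvd_sub (hp2.trans ht) (hp2.trans ht')) hxx
  have e4 : (p : ℤ) ∣ t' - t := (hpi.dvd_mul.1 e3).resolve_right hw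
  obtain ⟨k, hk⟩ := Polynomial.binomExpansion g t (t' - t)
  have e5 : t + (t' - t) = t' := by ring
  rw [e5] at hk
  have e6 : (p : ℤ) ^ 2 ∣ (t' - t) * (g.derivative.eval t + k * (t' - t)) := by
    have : (t' - t) * (g.derivative.eval t + k * (t' - t)) =
        g.eval t' - g.eval t := by rw [hk]; ring
    rw [this]
    exact e2'
  have e7 : ¬ (p : ℤ) ∣ g.derivative.eval t + k * (t' - t) := by
    intro h5
    apply hs t e0
    exact (dvd_add_left (e4.mul_left k)).1 h5
  have hcop : IsCoprime ((p : ℤ) ^ 2) (g.derivative.eval t + k * (t' - t)) :=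
    ((hpi.coprime_iff_not_dvd).2 e7).pow_left
  have e8 : (p : ℤ) ^ 2 ∣ t' - t := hcop.dvd_of_dvd_mul_right e6
  have h5 : x - x' = (x - t * w) - (x' - t' * w) - (t' - t) * w := by ring
  rw [h5]
  exact dvd_sub (dvd_sub ht ht') (e8.mul_right w)

/-- the family of the values of one form -/
noncomputable def BF (g : ℤ[X]) (z : ℕ) : SFam Unit Unit where
  F x y _ := hv g.natDegree g x y
  sc _ := true
  κ := 0
  z1 := z
  c := g.natDegree
  dg := g.natDegree
  ty _ _ _ _ := some ()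
  sn _ _ _ := 1
  nr _ p := if p.Prime ∧ z < p then rho g p else 0

theorem BF_ok {g : ℤ[X]} (hd : 0 < g.natDegree) {z : ℕ} (hG : GoodD g z g.natDegree)
    (hlc : ∀ p : ℕ, p.Prime → z < p → ¬ (p : ℤ) ∣ g.leadingCoeff)
    (hco : ∑ i ∈ range (g.natDegree + 1), (g.coeff i).natAbs ≤ z) : (BF g z).OK where
  c1 := hd
  cong := by
    intro p w x x' j hx h1
    simp only [BF, zero_mul, add_zero] at h1 ⊢
    exact (dvd_congr (hv_cong g.natDegree g hx (by simp : (p : ℤ) ∣ w - w))).1 h1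
  tcong := by
    intro p w x x' j _ _ _ _
    rfl
  un := by
    intro p hp hz a b hab j l _ _
    rfl
  ndw := by
    intro p hp hz w x hcop j h1 hy
    simp only [BF, zero_mul, add_zero] at h1 hcop hz
    have hpi := Nat.prime_iff_prime_int.1 hp
    have h2 : (p : ℤ) ∣ hv g.natDegree g x 0 :=
      (dvd_congr (hv_cong g.natDegree g (by simp : (p : ℤ) ∣ x - x)
        (by simpa using hy : (p : ℤ) ∣ w - 0))).1 h1
    rw [hv_zero] at h2
    rcases hpi.dvd_mul.1 h2 with h3 | h3
    · exact hlc p hp hz h3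
    · exact cop_nd hcop hp ⟨hpi.dvd_of_dvd_pow h3, hy⟩
  hens := by
    intro p hp hz w x x' hw j hx h1 h2
    simp only [BF, zero_mul, add_zero] at h1 h2 hz
    exact hens_hv hp hw (hG p hp hz).2 hx h1 h2
  snv := fun _ _ _ => Or.inl rfl
  card := by
    intro p hp hz w N hw i
    have h1 : p.Prime ∧ z < p := ⟨hp, hz⟩
    simp only [BF, zero_mul, add_zero, if_pos h1, and_true]
    have h2 := card_lineP hp N hw (fun x => (p : ℤ) ∣ hv g.natDegree g x w)
      (fun t => (p : ℤ) ∣ g.eval t) (fun x t hxt => by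
        have := root_hv (g := g) hp hw 1 (by rwa [pow_one])
        rwa [pow_one] at this)
      (fun t t' htt => dvd_congr (htt.trans (Polynomial.sub_dvd_eval_sub t t' g)))
    unfold rho
    convert h2 using 2
    · ext n
      simp
    · ext n
      simp
  nrs := by
    intro p
    simp only [BF]
    by_cases h1 : p.Prime ∧ z < p
    · simp only [if_pos h1]
      simpa using (hG p h1.1 h1.2).1
    · simp only [if_neg h1, sum_const_zero]
      exact Nat.zero_le _
  sz := by
    intro X x y hx hy hX j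
    simp only [BF]
    exact (hv_size g.natDegree g hx hy).trans (Nat.mul_le_mul_right _ hco)

end Pool.Agent.K7.H54.SG
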