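import Pool.Agent.K7.H54.SG.BFam

/-!
# Project SG: the moments of the 2-Selmer groups of the twists by the values of a binary form
-/

set_option autoImplicit false
set_option linter.all false

namespace Pool.Agent.K7.H54.SG

open Finset Polynomial Pool.Agent.W262.RK Pool.Agent.W307.RT Pool.Agent.W307.RS
open Pool.Agent.TH841.PT
open Pool.Agent.W307.SE (SN Sel SN_nonneg)
open Pool.Agent.K7.H54.HR (hv hv_cong hv_size)
open Pool.Agent.H474R2.PG (rho)

/-- the local count -/
noncomputable def gU (a : Fin 3 → ℤ) (k0 : ℕ) (s : Unit × Unit → ℕ) (E : Finset ℕ) : ℝ :=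
  (NL (s ((), ())) (LLs (c3 Unit) (fun _ => a) (fun _ => s ((), ())) E) : ℝ) ^ k0

lemma gU_nonneg (a : Fin 3 → ℤ) (k0 : ℕ) (s : Unit × Unit → ℕ) (E : Finset ℕ) :
    0 ≤ gU a k0 s E := pow_nonneg (Nat.cast_nonneg _) _

lemma m3_BF (g : ℤ[X]) (z : ℕ) (s : Unit × Unit → ℕ) : (BF g z).m3 s = s ((), ()) := by
  unfold SFam.m3
  have : (univ.filter (fun i : Unit × Unit => (BF g z).sc i.1 = true)) = {((), ())} := by
    ext i
    simp [BF]
  rw [this, prod_singleton]

lemma NBs_BF (g : ℤ[X]) (z : ℕ) (a : Fin 3 → ℤ) (k0 : ℕ) (s : Unit × Unit → ℕ) :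
    NBs (BF g z) (gU a k0) s = NBK k0 (fun _ : Unit => a) (fun _ => s ((), ())) := by
  unfold NBs NBK gU
  rw [m3_BF, P3_c3]
  simp

lemma NL_one (L : ℕ → Bool → Bool → Bool → Bool → Prop) : NL 1 L = 1 := by
  classical
  unfold NL
  simp [Nat.divisors_one]

lemma tyh_BF (g : ℤ[X]) (z : ℕ) (h x y : ℤ) :
    (fun (j : Unit) (p : ℕ) => (BF g z).tyh h j p x y) = tyU h := by
  funext j p
  unfold SFam.tyh tyU
  rfl

lemma pr_BF (g : ℤ[X]) (z1 : ℕ) (h : ℤ) (z : ℕ) (x y : ℤ) :
    (BF g z1).pr h z x y = prw (tyU h) z (fun _ : Unit => hv g.natDegree g x y) := by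
  unfold SFam.pr
  rw [tyh_BF]
  rfl

lemma neg_BF (g : ℤ[X]) (z1 : ℕ) (h : ℤ) (z y : ℕ) (x x' : ℤ) {s : Unit × Unit → ℕ}
    (h0 : hv g.natDegree g x x' ≠ 0)
    (hs : s ((), ()) = s1U h z y (hv g.natDegree g x x')) :
    (BF g z1).neg h s x x' = ngU h (hv g.natDegree g x x') (s ((), ())) := by
  unfold SFam.neg ngU
  rw [m3_BF]
  refine filter_congr fun p hp => ?_
  have hpp := Nat.prime_of_mem_primeFactors hp
  have hpd := Nat.dvd_of_mem_primeFactors hp
  rw [hs, s1U_dvd h0 hpp] at hpd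
  constructor
  · rintro ⟨j, _, _, h3⟩
    have h4 : jacobiSym (hv g.natDegree g x x' / p) p = -(1 * jacobiSym h p) := h3
    rw [one_mul] at h4
    exact h4
  · intro h3
    refine ⟨(), rfl, hpd.2.1, ?_⟩
    show jacobiSym (hv g.natDegree g x x' / p) p = -(1 * jacobiSym h p)
    rw [one_mul]
    exact h3

open Classical in
/-- **the moments of the twists by the values of a form**, large exponents -/
theorem avgB (a : Fin 3 → ℤ) (ha : ∀ k, a k ≠ 0) (ha2 : a 0 - a 1 = a 2) (g : ℤ[X])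
    (hg : Squarefree (g.map (Int.castRingHom ℚ))) (hd : 0 < g.natDegree) (k0 : ℕ)
    (hk0 : 2 * g.natDegree ≤ 4 ^ k0) :
    ∃ C A : ℝ, 0 ≤ C ∧ 1 ≤ A ∧ ∀ (h : ℤ) (T : ℕ), h ≠ 0 → 1 ≤ T →
      ∑ t ∈ (Box T).filter (fun t : ℤ × ℤ => IsCoprime t.1 t.2 ∧ hv g.natDegree g t.1 t.2 ≠ 0),
        SN (a 0 * (h * hv g.natDegree g t.1 t.2)) (a 1 * (h * hv g.natDegree g t.1 t.2)) ^ k0 ≤
          C * A ^ om h * (T : ℝ) ^ 2 := by
  obtain ⟨c, hc⟩ : ∃ c, c = g.natDegree := ⟨_, rfl⟩
  obtain ⟨z0, hz0⟩ := makp g hg hd g.natDegree k0 le_rfl hk0 (fun _ => a) (fun _ => ha)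
  obtain ⟨zg, hzg⟩ := GDPf.gdp g hg
  obtain ⟨z1, hz1⟩ : ∃ z1 : ℕ, z1 = zg + ∑ i ∈ range (g.natDegree + 1), (g.coeff i).natAbs :=
    ⟨_, rfl⟩
  have hg0 : g ≠ 0 := by
    rintro rfl
    simp at hd
  have hlc : ∀ p : ℕ, p.Prime → z1 < p → ¬ (p : ℤ) ∣ g.leadingCoeff := by
    intro p hp hzp hdv
    have h0 : g.leadingCoeff ≠ 0 := leadingCoeff_ne_zero.2 hg0
    have h1 := Nat.le_of_dvd (Int.natAbs_pos.2 h0) (Int.natCast_dvd.1 hdv)
    have h2 : (g.coeff g.natDegree).natAbs ≤
        ∑ i ∈ range (g.natDegree + 1), (g.coeff i).natAbs :=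
      single_le_sum (f := fun i => (g.coeff i).natAbs) (fun _ _ => Nat.zero_le _)
        (mem_range.2 (Nat.lt_add_one g.natDegree))
    have h4 : p ≤ (g.coeff g.natDegree).natAbs := h1
    omega
  have hOK : (BF g z1).OK := BF_ok hd (hzg z1 (by omega)) hlc (by omega)
  obtain ⟨z, hz⟩ : ∃ z : ℕ, z = z0 + z1 + z1 + 2 * c + 4 + ∑ k, (a k).natAbs := ⟨_, rfl⟩
  have hza : ∀ k, (a k).natAbs ≤ z := by
    intro k
    have h2 := single_le_sum (f := fun k => (a k).natAbs) (fun _ _ => Nat.zero_le _) (mem_univ k)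
    omega
  obtain ⟨C', hC'⟩ := hz0 z (by omega)
  have hκz : ∀ (j : Unit) k, ((fun _ : Unit => a) j k).natAbs ≤ z := fun _ => hza
  have hF : ∀ x y : ℤ, ∀ j, (BF g z1).F x y j = hv g.natDegree g x y := fun _ _ _ => rfl
  have hrank := fun (h x : ℤ) (hh : h ≠ 0) (hx : x ≠ 0) (y D : ℕ) (hsz : x.natAbs < (y + 1) ^ D) =>
    selU ha ha2 hh hx (z := z) (by omega) hza hsz
  obtain ⟨C, hC0, hC⟩ := avgG (BF g z1) hOK
    (fun h t => SN (a 0 * (h * hv g.natDegree g t.1 t.2))
      (a 1 * (h * hv g.natDegree g t.1 t.2)) ^ k0)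
    (fun h t => pow_nonneg (SN_nonneg _ _) _) (gU a k0) (gU_nonneg a k0) z
    (by
      simp only [BF, Int.natAbs_zero, zero_add, one_pow, mul_one]
      omega)
    ((4 ^ (z + 3)) ^ k0) (4 ^ k0) ((4 ^ c) ^ k0) (by positivity) (one_le_pow₀ (by norm_num))
    (one_le_pow₀ (one_le_pow₀ (by norm_num)))
    (by
      intro h x x' X y k hh hcop h0 hx hx' hX hzy hk
      have h0' : hv g.natDegree g x x' ≠ 0 := h0 ()
      have hsz : (hv g.natDegree g x x').natAbs < (y + 1) ^ (c * k + 1) := by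
        have h2 := hOK.sz X x x' hx hx' hX ()
        simp only [BF] at h2
        rw [← hc] at h2 ⊢
        have h3 : X ^ c ≤ ((y + 1) ^ k) ^ c := Nat.pow_le_pow_left hk.le _
        have h4 : 0 < ((y + 1) ^ k) ^ c := by positivity
        calc (hv c g x x').natAbs ≤ z1 * X ^ c := h2
          _ ≤ z1 * ((y + 1) ^ k) ^ c := Nat.mul_le_mul_left _ h3
          _ < (y + 1) * ((y + 1) ^ k) ^ c := Nat.mul_lt_mul_of_pos_right (by omega) h4
          _ = (y + 1) ^ (c * k + 1) := by rw [← pow_mul, pow_succ, mul_comm k]; ring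
      have h5 := hrank h _ hh h0' y (c * k + 1) hsz
      have es : S1 z y ((BF g z1).pr h z x x') ((), ()) =
          s1U h z y (hv g.natDegree g x x') := by rw [pr_BF]; rfl
      have es2 : ∑ i, (S2 z y ((BF g z1).pr h z x x') i).primeFactors.card =
          (s2U h z y (hv g.natDegree g x x')).primeFactors.card := by
        rw [pr_BF, Fintype.sum_prod_type]
        simp [s2U]
      rw [es2]
      unfold gU
      rw [neg_BF g z1 h z y x x' h0' es, es]
      refine (pow_le_pow_left₀ (SN_nonneg _ _) h5 k0).trans (le_of_eq ?_)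
      rw [mul_pow]
      congr 1
      unfold om
      have e : z + h.natAbs.primeFactors.card + (c * k + 1) +
          (s2U h z y (hv g.natDegree g x x')).primeFactors.card + 2 =
          (z + 3) + h.natAbs.primeFactors.card + c * k +
            (s2U h z y (hv g.natDegree g x x')).primeFactors.card := by ring
      rw [e, pow_add, pow_add, pow_add, mul_pow, mul_pow, mul_pow]
      rw [← pow_mul 4 h.natAbs.primeFactors.card k0, mul_comm h.natAbs.primeFactors.card k0,
        pow_mul 4 k0, ← pow_mul 4 (c * k) k0, ← pow_mul (4 ^ c) k0 k, ← pow_mul 4 c (k0 * k)]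
      ring)
    (by
      intro x x' h0
      have h0' : hv g.natDegree g x x' ≠ 0 := h0 ()
      obtain ⟨D, hD⟩ : ∃ D, (hv g.natDegree g x x').natAbs < (z + 1) ^ D :=
        ⟨(hv g.natDegree g x x').natAbs, Nat.lt_pow_self (by omega)⟩
      refine ⟨(4 ^ (z + D + 2)) ^ k0, by positivity, fun h hh => ?_⟩
      have h5 := hrank h _ hh h0' z D hD
      have hPP : PP z z = 1 := by
        unfold PP PS
        simp
      have e1 : s1U h z z (hv g.natDegree g x x') = 1 :=
        Nat.dvd_one.1 (hPP ▸ s1U_PP h _ z z)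
      have e2 : s2U h z z (hv g.natDegree g x x') = 1 :=
        Nat.dvd_one.1 (hPP ▸ s2U_PP h _ z z)
      rw [e1, e2, NL_one, Nat.primeFactors_one, card_empty, Nat.cast_one, mul_one] at h5
      refine (pow_le_pow_left₀ (SN_nonneg _ _) h5 k0).trans (le_of_eq ?_)
      unfold om
      have e : z + h.natAbs.primeFactors.card + D + 0 + 2 =
        (z + D + 2) + h.natAbs.primeFactors.card := by ring
      rw [e, pow_add, mul_pow, ← pow_mul 4 h.natAbs.primeFactors.card k0,
        mul_comm h.natAbs.primeFactors.card k0, pow_mul 4 k0])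
    (by
      intro y hy s e hse
      rw [NBs_BF, NBs_BF]
      have h6 : (fun j : Unit => s ((), ()) * e ((), ())) ∈ Tup Unit z y := by
        rw [Pool.Agent.W372.RK2.mem_Tup'] at hse ⊢
        exact ⟨fun _ => hse.1 ((), ()), fun i j hij => absurd rfl hij⟩
      have h7 := Pool.Agent.W925.RS.subbk Unit k0 (fun _ => a) z y (by omega) (fun _ => ha) hκz
        (fun _ => s ((), ())) (fun _ => e ((), ())) h6
      have e1 : ∑ j : Unit × Unit, (e j).primeFactors.card = (e ((), ())).primeFactors.card := by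
        rw [Fintype.sum_prod_type]
        simp
      rw [e1]
      simpa using h7)
    C'
    (by
      intro y hy
      have h6 := hC' y hy
      have h7 : ((BF g z1).E z y)⁻¹ = Real.exp (Sp (fun p => rho g p) z y) := by
        unfold SFam.E
        rw [Real.exp_neg, inv_inv]
        congr 1
        unfold Sp
        refine sum_congr rfl fun p hp => ?_
        have h8 := mem_PS.1 hp
        congr 2
        unfold SFam.nt
        rw [Fintype.sum_prod_type]
        have h9 : p.Prime ∧ z1 < p := ⟨h8.2, by omega⟩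
        simp [BF, h9]
      rw [h7]
      refine le_trans (le_of_eq ?_) h6
      let e : Unit × Unit ≃ Unit :=
        ⟨fun _ => (), fun _ => ((), ()), fun _ => rfl, fun _ => rfl⟩
      rw [sum_Tup_equiv e]
      refine sum_congr rfl fun d hd => ?_
      rw [NBs_BF]
      have h10 : ∀ i : Unit × Unit, gp ((BF g z1).g i) (BF g z1).c (d (e i)) =
          gp (rz g z) g.natDegree (d ()) := by
        intro i
        unfold gp
        have e1 : (BF g z1).c = g.natDegree := rfl
        rw [e1]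
        refine prod_congr rfl fun p hp => ?_
        have hpp := Nat.prime_of_mem_primeFactors hp
        have hzp := prime_gt (Tup_unit hd) hp
        have h9 : p.Prime ∧ z1 < p := ⟨hpp, by omega⟩
        unfold SFam.g rz
        simp [BF, h9, hzp]
      rw [Fintype.prod_prod_type]
      simp only [h10]
      simp [e])
  refine ⟨C, 2 * 4 ^ k0, hC0, ?_, fun h T hh hT => ?_⟩
  · have : (1 : ℝ) ≤ 4 ^ k0 := one_le_pow₀ (by norm_num)
    linarith
  · refine le_trans (le_of_eq ?_) (hC h T hh hT)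
    refine sum_congr (filter_congr fun t _ => ?_) fun _ _ => rfl
    simp [hF]

end Pool.Agent.K7.H54.SG
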