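import Pool.Agent.K7.H54.SG.BSel
import Pool.Agent.TH841.PT.Fam

/-!
# Project SG: ranks and Tate-Shafarevich groups of the twists by the values of binary forms
-/

set_option autoImplicit false
set_option linter.all false

namespace Pool.Agent.K7.H54.SG

open Finset Polynomial
open Pool.Agent.TH841.PT
open Pool.Agent.W307.RT (Box)
open Pool.Agent.W307.SE (SN SelR)
open Pool.Agent.K7.H54.HR (hv hv_mul)

/-- the value at `(x, y)` of the binary form of degree `n` with the coefficients `c` -/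
def bf (n : ℕ) (c : ℕ → ℤ) (t : ℤ × ℤ) : ℤ := ∑ i ∈ range (n + 1), c i * t.1 ^ i * t.2 ^ (n - i)

/-- the polynomial of a form -/
noncomputable def bp (n : ℕ) (c : ℕ → ℤ) : ℤ[X] := ∑ i ∈ range (n + 1), monomial i (c i)

lemma bp_coeff (n : ℕ) (c : ℕ → ℤ) (i : ℕ) : (bp n c).coeff i = if i ≤ n then c i else 0 := by
  unfold bp
  rw [finset_sum_coeff]
  simp only [coeff_monomial]
  by_cases h : i ≤ n
  · rw [if_pos h, sum_eq_single i]
    · simp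
    · intro j _ hj
      rw [if_neg hj]
    · intro h2
      exact absurd (mem_range.2 (Nat.lt_succ_of_le h)) h2
  · rw [if_neg h]
    refine sum_eq_zero fun j hj => ?_
    rw [if_neg]
    have := mem_range.1 hj
    omega

lemma bp_deg (n : ℕ) (c : ℕ → ℤ) : (bp n c).natDegree ≤ n := by
  rw [natDegree_le_iff_coeff_eq_zero]
  intro i hi
  rw [bp_coeff, if_neg (by omega)]

lemma bf_eq (n : ℕ) (c : ℕ → ℤ) (t : ℤ × ℤ) : bf n c t = hv n (bp n c) t.1 t.2 := by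
  unfold bf hv
  refine sum_congr rfl fun i hi => ?_
  rw [bp_coeff, if_pos (by have := mem_range.1 hi; omega)]

lemma bp_ne {n : ℕ} {c : ℕ → ℤ} (h : ∃ i ≤ n, c i ≠ 0) : bp n c ≠ 0 := by
  obtain ⟨i, hi, h0⟩ := h
  intro h1
  have := bp_coeff n c i
  rw [h1, coeff_zero, if_pos hi] at this
  exact h0 this.symm

section Q

open Pool.Agent.TH841.SH.D (ShaTor HasDiv rk)

open Classical in
/-- the Tate-Shafarevich groups of the twists by the values of a form -/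
theorem shaB {A B e₁ e₂ e₃ : ℤ} (hE : 4 * A ^ 3 + 27 * B ^ 2 ≠ 0)
    (he : ∀ x : ℤ, x ^ 3 + A * x + B = (x - e₁) * (x - e₂) * (x - e₃)) {n : ℕ} {c : ℕ → ℤ}
    (hc : ∃ i ≤ n, c i ≠ 0) (s : ℕ) :
    ∃ C : ℝ, 0 ≤ C ∧ ∀ T : ℕ, 1 ≤ T →
      (∀ t ∈ (Box T).filter (fun t => bf n c t ≠ 0), ∀ k : ℕ,
        Finite (ShaTor (TwQ A B (bf n c t)) (2 ^ k))) ∧
      (∀ k : ℕ, 1 ≤ k → ∑ t ∈ (Box T).filter (fun t => bf n c t ≠ 0),
        ((2 : ℝ) ^ rk (TwQ A B (bf n c t)) *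
        (Nat.card (ShaTor (TwQ A B (bf n c t)) (2 ^ k)) : ℝ) ^ ((1 : ℝ) / k)) ^ s ≤
          C * (T : ℝ) ^ 2) ∧
      ∀ r q : ℕ, ((((Box T).filter (fun t => bf n c t ≠ 0)).filter (fun t =>
        r ≤ rk (TwQ A B (bf n c t)) ∧ HasDiv (TwQ A B (bf n c t)) q)).card : ℝ) ≤
          C * (T : ℝ) ^ 2 / 2 ^ (s * (r + q)) := by
  obtain ⟨C, hC0, hC⟩ := selB hE he (bp n c) (bp_ne hc) (bp_deg n c) s
  simp only [← bf_eq] at hC
  refine ⟨C, hC0, fun T hT => ?_⟩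
  have hbd : ∀ t ∈ (Box T).filter (fun t => bf n c t ≠ 0),
      Pool.Agent.TH841.SH.Bd (TwQ A B (bf n c t))
        ((SelR ((bf n c t) ^ 2 * A) ((bf n c t) ^ 3 * B)).ncard : ℝ) := by
    intro t ht
    have hd := (mem_filter.1 ht).2
    exact Pool.Agent.TH841.SH.bd_selR (Pool.Agent.TH639.SL.disc_tw hd hE)
      (Pool.Agent.TH639.SL.roots_tw he _) (Pool.Agent.TH639.SL.sel_tw hE he hd).1
  exact Pool.Agent.TH841.SH.family ((Box T).filter (fun t => bf n c t ≠ 0))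
    (fun t => TwQ A B (bf n c t)) _ (C * (T : ℝ) ^ 2) s hbd (hC T hT)

end Q

section F

open Pool.Agent.TH841.NF (EF Gen)

open Pool.Agent.TH841.NF.D (HasDiv crk rk)

/-- products of values of forms are the values of a form -/
lemma prodB {m : ℕ} (n : Fin m → ℕ) (c : Fin m → ℕ → ℤ) (hc : ∀ i, ∃ j ≤ n i, c i j ≠ 0)
    (n₀ : ℕ) (c₀ : ℕ → ℤ) (hc₀ : ∃ i ≤ n₀, c₀ i ≠ 0) (S : Finset (Fin m)) :
    ∃ (N : ℕ) (f : ℤ[X]), f ≠ 0 ∧ f.natDegree ≤ N ∧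
      ∀ t : ℤ × ℤ, hv N f t.1 t.2 = bf n₀ c₀ t * ∏ i ∈ S, bf (n i) (c i) t := by
  classical
  induction S using Finset.induction_on with
  | empty =>
    refine ⟨n₀, bp n₀ c₀, bp_ne hc₀, bp_deg n₀ c₀, fun t => ?_⟩
    rw [prod_empty, mul_one, bf_eq]
  | insert a S ha ih =>
    obtain ⟨N, f, h1, h2, h3⟩ := ih
    refine ⟨N + n a, f * bp (n a) (c a), mul_ne_zero h1 (bp_ne (hc a)),
      natDegree_mul_le.trans (add_le_add h2 (bp_deg _ _)), fun t => ?_⟩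
    rw [hv_mul h2 (bp_deg _ _), h3, prod_insert ha, ← bf_eq]
    ring

open Classical in
/-- the twists by `F₀(t)` over the fields `ℚ(√F₁(t), ..., √F_m(t))` -/
theorem mqB {A B e₁ e₂ e₃ : ℤ} (hE : 4 * A ^ 3 + 27 * B ^ 2 ≠ 0)
    (he : ∀ x : ℤ, x ^ 3 + A * x + B = (x - e₁) * (x - e₂) * (x - e₃))
    {n₀ : ℕ} {c₀ : ℕ → ℤ} (hc₀ : ∃ i ≤ n₀, c₀ i ≠ 0) {m : ℕ} (n : Fin m → ℕ)
    (c : Fin m → ℕ → ℤ) (hc : ∀ i, ∃ j ≤ n i, c i j ≠ 0) (k : ℕ) :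
    ∃ C : ℝ, 0 ≤ C ∧ ∀ T : ℕ, 1 ≤ T →
      ∀ (F : ℤ × ℤ → Type) [∀ t, Field (F t)] [∀ t, NumberField (F t)],
      (∀ t ∈ (Box T).filter (fun t => bf n₀ c₀ t ≠ 0 ∧ ∀ i, bf (n i) (c i) t ≠ 0),
        Gen (F t) (fun i => bf (n i) (c i) t)) →
      ∀ W : ∀ t, WeierstrassCurve (F t),
      (∀ t, W t = EF ((bf n₀ c₀ t) ^ 2 * A) ((bf n₀ c₀ t) ^ 3 * B) (F t)) →
      (∀ t ∈ (Box T).filter (fun t => bf n₀ c₀ t ≠ 0 ∧ ∀ i, bf (n i) (c i) t ≠ 0),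
        BddAbove {q | HasDiv (W t) q}) ∧
      ∑ t ∈ (Box T).filter (fun t => bf n₀ c₀ t ≠ 0 ∧ ∀ i, bf (n i) (c i) t ≠ 0),
        ((2 : ℝ) ^ (rk (W t) + crk (W t))) ^ k ≤ C * (T : ℝ) ^ 2 ∧
      ∀ r : ℕ, ((((Box T).filter (fun t => bf n₀ c₀ t ≠ 0 ∧
        ∀ i, bf (n i) (c i) t ≠ 0)).filter (fun t => r ≤ rk (W t) + crk (W t))).card : ℝ) ≤
        C * (T : ℝ) ^ 2 / 2 ^ (k * r) := by
  choose N f hf0 hfd hfv using fun S : Finset (Fin m) => prodB n c hc n₀ c₀ hc₀ S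
  choose C hC0 hC using fun S : Finset (Fin m) => selB hE he (f S) (hf0 S) (hfd S)
    (Fintype.card (Finset (Fin m)) * k)
  refine ⟨∑ S, C S, sum_nonneg fun S _ => hC0 S, fun T hT F _ _ hF W hW => ?_⟩
  refine Pool.Agent.TH841.NF.famN _ F W (fun t => ∏ S : Finset (Fin m),
    ((SelR ((hv (N S) (f S) t.1 t.2) ^ 2 * A)
      ((hv (N S) (f S) t.1 t.2) ^ 3 * B)).ncard : ℝ)) k _ ?_ ?_
  · intro t ht q hq
    have ht' := (mem_filter.1 ht).2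
    rw [hW t] at hq ⊢
    have hne' : ∀ S : Finset (Fin m), hv (N S) (f S) t.1 t.2 ≠ 0 := by
      intro S
      rw [hfv]
      exact mul_ne_zero ht'.1 (prod_ne_zero_iff.2 fun i _ => ht'.2 i)
    have e2 : ∀ S : Finset (Fin m), (∏ i ∈ S, bf (n i) (c i) t) ^ 2 *
        (bf n₀ c₀ t ^ 2 * A) = (hv (N S) (f S) t.1 t.2) ^ 2 * A := by
      intro S
      rw [hfv]
      ring
    have e3 : ∀ S : Finset (Fin m), (∏ i ∈ S, bf (n i) (c i) t) ^ 3 *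
        (bf n₀ c₀ t ^ 3 * B) = (hv (N S) (f S) t.1 t.2) ^ 3 * B := by
      intro S
      rw [hfv]
      ring
    refine Pool.Agent.TH841.NF.one_field (d := fun i => bf (n i) (c i) t) (hF t ht)
      (fun i => ht'.2 i) (Pool.Agent.TH639.SL.disc_tw ht'.1 hE) _ ?_ ?_ hq
    · intro S
      rw [e2, e3]
      exact Pool.Agent.TH841.SH.bd_selR (Pool.Agent.TH639.SL.disc_tw (hne' S) hE)
        (Pool.Agent.TH639.SL.roots_tw he _) (Pool.Agent.TH639.SL.sel_tw hE he (hne' S)).1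
    · intro S
      rw [e2, e3]
      exact Pool.Agent.W307.RG.fin_tw hE he (hne' S)
  · rw [sum_mul]
    refine le_trans ?_ (sum_le_sum fun S _ => hC S T hT)
    refine (sum_le_sum fun t _ => Pool.Agent.TH841.NF.prod_pow_le _
      (fun S => Nat.cast_nonneg _) k).trans ?_
    rw [sum_comm]
    refine sum_le_sum fun S _ => ?_
    refine sum_le_sum_of_subset_of_nonneg ?_ (fun t _ _ => by positivity)
    intro t ht
    rw [mem_filter] at ht ⊢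
    refine ⟨ht.1, ?_⟩
    rw [hfv]
    exact mul_ne_zero ht.2.1 (prod_ne_zero_iff.2 fun i _ => ht.2.2 i)

end F

end Pool.Agent.K7.H54.SG
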