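import Pool.Agent.K7.H54.SG.BAvg
import Pool.Agent.TH841.PT.Sel

/-!
# Project SG: the moments of the 2-Selmer groups of the twists by the values of a binary form,
all forms, all pairs
-/

set_option autoImplicit false
set_option linter.all false

namespace Pool.Agent.K7.H54.SG

open Finset Polynomial Pool.Agent.W262.RK Pool.Agent.W307.RT Pool.Agent.W307.RS
open Pool.Agent.TH841.PT
open Pool.Agent.W307.SE (SN Sel SelR SN_nonneg)
open Pool.Agent.K7.H54.HR (hv hv_cong hv_size hv_mul hv_pow mob hv_mob mob_deg)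

lemma sum_le_inj {α β : Type} [DecidableEq β] {S : Finset α} {S' : Finset β} {R : α → ℝ}
    {R' : β → ℝ} (i : α → β) (h1 : ∀ t ∈ S, i t ∈ S') (h2 : Set.InjOn i S)
    (h3 : ∀ t ∈ S, R t ≤ R' (i t)) (h4 : ∀ t, 0 ≤ R' t) : ∑ t ∈ S, R t ≤ ∑ t ∈ S', R' t := by
  refine (sum_le_sum h3).trans ?_
  rw [← sum_image h2]
  refine sum_le_sum_of_subset_of_nonneg ?_ fun t _ _ => h4 t
  intro x hx
  obtain ⟨t, ht, rfl⟩ := mem_image.1 hx
  exact h1 t ht

lemma box_card (T : ℕ) (hT : 1 ≤ T) : ((Box T).card : ℝ) ≤ 9 * (T : ℝ) ^ 2 := by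
  unfold Box
  rw [card_product, Int.card_Icc]
  have h1 : ((T : ℤ) + 1 - -(T : ℤ)).toNat = 2 * T + 1 := by omega
  rw [h1]
  have h2 : (1 : ℝ) ≤ T := by exact_mod_cast hT
  push_cast
  nlinarith

lemma om_le_pow {A : ℝ} (hA : 1 ≤ A) : ∃ B : ℝ, 0 ≤ B ∧ ∀ g : ℕ, 1 ≤ g →
    A ^ om (g : ℤ) ≤ B * (g : ℝ) ^ (1 / 2 : ℝ) := by
  obtain ⟨M, hM⟩ := exists_nat_ge (A ^ 2)
  refine ⟨A ^ M, by positivity, fun g hg => ?_⟩
  unfold om
  rw [Int.natAbs_natCast]
  have hA0 : 0 < A := by linarith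
  rw [← card_filter_add_card_filter_not (s := g.primeFactors) (fun p => p ≤ M), pow_add]
  refine mul_le_mul ?_ ?_ (by positivity) (by positivity)
  · apply pow_le_pow_right₀ hA
    have h1 : g.primeFactors.filter (fun p => p ≤ M) ⊆ Icc 1 M := by
      intro p hp
      rw [mem_filter] at hp
      rw [mem_Icc]
      exact ⟨(Nat.prime_of_mem_primeFactors hp.1).one_lt.le, hp.2⟩
    have := card_le_card h1
    simpa using this
  · set S := g.primeFactors.filter (fun p => ¬ p ≤ M) with hS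
    have h1 : A ^ S.card ≤ ∏ p ∈ S, (p : ℝ) ^ (1 / 2 : ℝ) := by
      rw [← prod_const]
      refine prod_le_prod (fun _ _ => hA0.le) fun p hp => ?_
      have h2 := (mem_filter.1 hp).2
      have h3 : A ^ 2 ≤ p := hM.trans (by exact_mod_cast (by omega : M ≤ p))
      rw [← Real.sqrt_eq_rpow]
      exact Real.le_sqrt_of_sq_le h3
    refine h1.trans ?_
    rw [Real.finset_prod_rpow _ _ (fun _ _ => Nat.cast_nonneg _)]
    apply Real.rpow_le_rpow (prod_nonneg fun _ _ => Nat.cast_nonneg _) _ (by norm_num)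
    rw [← Nat.cast_prod, Nat.cast_le]
    refine Nat.le_of_dvd (by omega) ?_
    exact (prod_dvd_prod_of_subset _ _ _ (filter_subset _ _)).trans (Nat.prod_primeFactors_dvd _)

/-- the sum over the common factors -/
lemma sum_om {A : ℝ} (hA : 1 ≤ A) : ∃ B : ℝ, 0 ≤ B ∧ ∀ G : ℕ,
    ∑ g ∈ Icc 1 G, A ^ om (g : ℤ) / (g : ℝ) ^ 2 ≤ B := by
  obtain ⟨B, hB0, hB⟩ := om_le_pow hA
  have hs : Summable (fun n : ℕ => 1 / (n : ℝ) ^ (3 / 2 : ℝ)) :=
    Real.summable_one_div_nat_rpow.2 (by norm_num)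
  refine ⟨B * ∑' n : ℕ, 1 / (n : ℝ) ^ (3 / 2 : ℝ), mul_nonneg hB0 (tsum_nonneg fun n => by
    positivity), fun G => ?_⟩
  have h1 : ∑ g ∈ Icc 1 G, A ^ om (g : ℤ) / (g : ℝ) ^ 2 ≤
      ∑ g ∈ Icc 1 G, B * (1 / (g : ℝ) ^ (3 / 2 : ℝ)) := by
    refine sum_le_sum fun g hg => ?_
    have hg1 := (mem_Icc.1 hg).1
    have hg0 : (0 : ℝ) < g := by exact_mod_cast hg1
    have h2 := hB g hg1
    rw [div_le_iff₀ (by positivity)]
    refine h2.trans (le_of_eq ?_)
    have h3 : (g : ℝ) ^ 2 = (g : ℝ) ^ (3 / 2 : ℝ) * (g : ℝ) ^ (1 / 2 : ℝ) := by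
      rw [← Real.rpow_add hg0, ← Real.rpow_natCast]
      norm_num
    rw [h3]
    field_simp
  refine h1.trans ?_
  rw [← mul_sum]
  exact mul_le_mul_of_nonneg_left (hs.sum_le_tsum _ fun _ _ => by positivity) hB0

open Classical in
/-- the moments for a squarefree polynomial, all exponents -/
theorem snB (a : Fin 3 → ℤ) (ha : ∀ k, a k ≠ 0) (ha2 : a 0 - a 1 = a 2) (g : ℤ[X])
    (hg : Squarefree (g.map (Int.castRingHom ℚ))) (k : ℕ) :
    ∃ C A : ℝ, 0 ≤ C ∧ 1 ≤ A ∧ ∀ (h : ℤ) (T : ℕ), h ≠ 0 → 1 ≤ T →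
      ∑ t ∈ (Box T).filter (fun t : ℤ × ℤ => IsCoprime t.1 t.2 ∧ hv g.natDegree g t.1 t.2 ≠ 0),
        SN (a 0 * (h * hv g.natDegree g t.1 t.2)) (a 1 * (h * hv g.natDegree g t.1 t.2)) ^ k ≤
          C * A ^ om h * (T : ℝ) ^ 2 := by
  by_cases hd : 0 < g.natDegree
  · set k' := k + 2 * g.natDegree with hk'
    have hk2 : 2 * g.natDegree ≤ 4 ^ k' := by
      have h1 : k' < 4 ^ k' := Nat.lt_pow_self (by norm_num)
      omega
    obtain ⟨C, A, hC0, hA, hC⟩ := avgB a ha ha2 g hg hd k' hk2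
    refine ⟨9 + C, A, by positivity, hA, fun h T hh hT => ?_⟩
    have h2 : ∑ t ∈ (Box T).filter (fun t : ℤ × ℤ => IsCoprime t.1 t.2 ∧
        hv g.natDegree g t.1 t.2 ≠ 0),
        SN (a 0 * (h * hv g.natDegree g t.1 t.2)) (a 1 * (h * hv g.natDegree g t.1 t.2)) ^ k ≤
        ∑ t ∈ (Box T).filter (fun t : ℤ × ℤ => IsCoprime t.1 t.2 ∧
        hv g.natDegree g t.1 t.2 ≠ 0), (1 +
        SN (a 0 * (h * hv g.natDegree g t.1 t.2))
          (a 1 * (h * hv g.natDegree g t.1 t.2)) ^ k') := by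
      refine sum_le_sum fun t _ => ?_
      have h0 := SN_nonneg (a 0 * (h * hv g.natDegree g t.1 t.2))
        (a 1 * (h * hv g.natDegree g t.1 t.2))
      rcases le_total (SN (a 0 * (h * hv g.natDegree g t.1 t.2))
        (a 1 * (h * hv g.natDegree g t.1 t.2))) 1 with h3 | h3
      · have := pow_le_one₀ (n := k) h0 h3
        have := pow_nonneg h0 k'
        linarith
      · have := pow_le_pow_right₀ h3 (by omega : k ≤ k')
        linarith
    refine h2.trans ?_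
    rw [sum_add_distrib, sum_const, nsmul_eq_mul, mul_one]
    have h4 : (((Box T).filter (fun t : ℤ × ℤ => IsCoprime t.1 t.2 ∧
        hv g.natDegree g t.1 t.2 ≠ 0)).card : ℝ) ≤ (Box T).card := by
      exact_mod_cast card_le_card (filter_subset _ _)
    have h5 := box_card T hT
    have h6 := hC h T hh hT
    have h7 : 1 ≤ A ^ om h := one_le_pow₀ hA
    have h8 : 9 * (T : ℝ) ^ 2 ≤ 9 * A ^ om h * (T : ℝ) ^ 2 := by
      have : (0 : ℝ) ≤ (T : ℝ) ^ 2 := by positivity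
      nlinarith
    calc _ ≤ 9 * A ^ om h * (T : ℝ) ^ 2 + C * A ^ om h * (T : ℝ) ^ 2 :=
          add_le_add ((h4.trans h5).trans h8) h6
      _ = _ := by ring
  · obtain ⟨c, hc⟩ : ∃ c : ℤ, g = C c :=
      ⟨g.coeff 0, Polynomial.eq_C_of_natDegree_eq_zero (by omega)⟩
    have hv0 : ∀ x y : ℤ, hv g.natDegree g x y = c := by
      intro x y
      rw [hc, natDegree_C]
      unfold hv
      simp
    by_cases hc0 : c = 0
    · refine ⟨0, 1, le_rfl, le_rfl, fun h T hh hT => ?_⟩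
      have : (Box T).filter (fun t : ℤ × ℤ => IsCoprime t.1 t.2 ∧
          hv g.natDegree g t.1 t.2 ≠ 0) = ∅ := by
        rw [filter_eq_empty_iff]
        intro t _ ht
        exact ht.2 (by rw [hv0, hc0])
      rw [this, sum_empty]
      simp
    obtain ⟨z, hz⟩ : ∃ z : ℕ, z = 4 + ∑ k, (a k).natAbs := ⟨_, rfl⟩
    have hza : ∀ k, (a k).natAbs ≤ z := by
      intro k
      have h2 := single_le_sum (f := fun k => (a k).natAbs) (fun _ _ => Nat.zero_le _)
        (mem_univ k)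
      omega
    obtain ⟨D, hD⟩ : ∃ D, c.natAbs < (z + 1) ^ D := ⟨c.natAbs, Nat.lt_pow_self (by omega)⟩
    refine ⟨9 * (4 ^ (z + D + 2)) ^ k, 4 ^ k, by positivity, one_le_pow₀ (by norm_num),
      fun h T hh hT => ?_⟩
    have h5 := selU ha ha2 hh hc0 (z := z) (y := z) (by omega) hza hD
    have hPP : PP z z = 1 := by
      unfold PP PS
      simp
    have e1 : s1U h z z c = 1 := Nat.dvd_one.1 (hPP ▸ s1U_PP h _ z z)
    have e2 : s2U h z z c = 1 := Nat.dvd_one.1 (hPP ▸ s2U_PP h _ z z)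
    rw [e1, e2, NL_one, Nat.primeFactors_one, card_empty, Nat.cast_one, mul_one] at h5
    have h6 : SN (a 0 * (h * c)) (a 1 * (h * c)) ^ k ≤
        (4 ^ (z + D + 2)) ^ k * (4 ^ k) ^ om h := by
      refine (pow_le_pow_left₀ (SN_nonneg _ _) h5 k).trans (le_of_eq ?_)
      unfold om
      ring
    simp only [hv0]
    rw [sum_const, nsmul_eq_mul]
    have h4 : (((Box T).filter (fun t : ℤ × ℤ => IsCoprime t.1 t.2 ∧ c ≠ 0)).card : ℝ) ≤
        (Box T).card := by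
      exact_mod_cast card_le_card (filter_subset _ _)
    calc _ ≤ (9 * (T : ℝ) ^ 2) * ((4 ^ (z + D + 2)) ^ k * (4 ^ k) ^ om h) :=
          mul_le_mul (h4.trans (box_card T hT)) h6 (pow_nonneg (SN_nonneg _ _) _) (by positivity)
      _ = _ := by ring

lemma hv_homog (n : ℕ) (f : ℤ[X]) (g x y : ℤ) :
    hv n f (g * x) (g * y) = g ^ n * hv n f x y := by
  unfold hv
  rw [mul_sum]
  refine sum_congr rfl fun i hi => ?_
  have h1 : i ≤ n := Nat.lt_succ_iff.1 (mem_range.1 hi)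
  have h2 : g ^ n = g ^ i * g ^ (n - i) := by rw [← pow_add]; congr 1; omega
  rw [mul_pow, mul_pow, h2]
  ring

open Classical in
/-- **all the moments of the 2-Selmer groups of the twists by the values of a form** -/
theorem selB {A B e1 e2 e3 : ℤ} (hE : 4 * A ^ 3 + 27 * B ^ 2 ≠ 0)
    (he : ∀ x : ℤ, x ^ 3 + A * x + B = (x - e1) * (x - e2) * (x - e3)) (f : ℤ[X]) (hf : f ≠ 0)
    {n : ℕ} (hn : f.natDegree ≤ n) (k : ℕ) :
    ∃ C : ℝ, 0 ≤ C ∧ ∀ T : ℕ, 1 ≤ T →
      ∑ t ∈ (Box T).filter (fun t : ℤ × ℤ => hv n f t.1 t.2 ≠ 0),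
        ((SelR ((hv n f t.1 t.2) ^ 2 * A) ((hv n f t.1 t.2) ^ 3 * B)).ncard : ℝ) ^ k ≤
          C * (T : ℝ) ^ 2 := by
  obtain ⟨c, hc⟩ : ∃ c : ℤ, f.eval c ≠ 0 := by
    by_contra hcon
    push Not at hcon
    exact hf (Polynomial.funext (by simpa using hcon))
  have hD0 : mob c n f ≠ 0 := by
    intro h0
    have := Pool.Agent.K7.H54.HR.mob_coeff (n := n) (f := f) c
    rw [h0, coeff_zero] at this
    exact hc this.symm
  have hDn := mob_deg hn hc
  obtain ⟨D₁, D₂, hfac, hsq⟩ := exists_fac (mob c n f) hD0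
  have hD₁ : D₁ ≠ 0 := by
    rintro rfl
    rw [zero_mul] at hfac
    exact hD0 hfac
  have hD₂ : D₂ ≠ 0 := by
    rintro rfl
    rw [zero_pow two_ne_zero, mul_zero] at hfac
    exact hD0 hfac
  have hdeg : n = D₁.natDegree + 2 * D₂.natDegree := by
    rw [← hDn, hfac, natDegree_mul hD₁ (pow_ne_zero 2 hD₂), natDegree_pow]
  obtain ⟨h12, h13, h23⟩ := Pool.Agent.TH639.SL.disc_ne hE he
  obtain ⟨C, Am, hC0, hAm, hC⟩ := snB ![e2 - e1, e3 - e1, e2 - e3] (by
      intro i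
      fin_cases i
      · exact h12
      · exact h13
      · exact h23)
    (by
      change (e2 - e1) - (e3 - e1) = e2 - e3
      ring) D₁ hsq k
  obtain ⟨Bs, hBs0, hBs⟩ := sum_om hAm
  obtain ⟨q, hq⟩ : ∃ q : ℕ, q = 1 + c.natAbs := ⟨_, rfl⟩
  -- the value
  have hval : ∀ g x y : ℤ, ∃ w : ℤ, hv n f (g * y + c * (g * x)) (g * x) =
      g ^ (D₁.natDegree % 2) * hv D₁.natDegree D₁ x y * w ^ 2 := by
    intro g x y
    refine ⟨g ^ (D₁.natDegree / 2) * hv D₂.natDegree D₂ (g * x) (g * y), ?_⟩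
    rw [← hv_mob hn c (g * x) (g * y)]
    have e1 : hv n (mob c n f) (g * x) (g * y) = hv D₁.natDegree D₁ (g * x) (g * y) *
        hv D₂.natDegree D₂ (g * x) (g * y) ^ 2 := by
      rw [hfac]
      conv_lhs => rw [hdeg]
      rw [hv_mul le_rfl (natDegree_pow_le_of_le 2 le_rfl), hv_pow le_rfl]
    rw [e1, hv_homog D₁.natDegree D₁ g x y]
    have e2 : g ^ D₁.natDegree = g ^ (D₁.natDegree % 2) * (g ^ (D₁.natDegree / 2)) ^ 2 := by
      rw [← pow_mul, ← pow_add]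
      congr 1
      omega
    rw [e2]
    ring
  -- the terms
  set R : ℤ × ℤ → ℝ := fun t =>
    ((SelR ((hv n f t.1 t.2) ^ 2 * A) ((hv n f t.1 t.2) ^ 3 * B)).ncard : ℝ) ^ k with hR
  have hR0 : ∀ t, 0 ≤ R t := fun t => pow_nonneg (Nat.cast_nonneg _) _
  have hterm : ∀ g x y : ℤ, hv n f (g * y + c * (g * x)) (g * x) ≠ 0 →
      hv D₁.natDegree D₁ x y ≠ 0 ∧ R (g * y + c * (g * x), g * x) ≤
        SN ((e2 - e1) * (g ^ (D₁.natDegree % 2) * hv D₁.natDegree D₁ x y))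
          ((e3 - e1) * (g ^ (D₁.natDegree % 2) * hv D₁.natDegree D₁ x y)) ^ k := by
    intro g x y h0
    obtain ⟨w, hw⟩ := hval g x y
    refine ⟨fun h1 => h0 (by rw [hw, h1]; ring), ?_⟩
    refine pow_le_pow_left₀ (Nat.cast_nonneg _) ?_ k
    have h2 := (Pool.Agent.TH841.NF.sel_tw2 hE he (c := 1)
      (P := g ^ (D₁.natDegree % 2) * hv D₁.natDegree D₁ x y) (w := w) h0
      (by rw [one_mul]; exact hw)).2
    rwa [mul_one, mul_one] at h2
  have hom : ∀ g : ℕ, 1 ≤ g → Am ^ om ((g : ℤ) ^ (D₁.natDegree % 2)) ≤ Am ^ om (g : ℤ) := by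
    intro g hg
    apply pow_le_pow_right₀ hAm
    unfold om
    apply card_le_card
    rcases Nat.mod_two_eq_zero_or_one D₁.natDegree with h1 | h1
    · rw [h1, pow_zero]
      simp
    · rw [h1, pow_one]
  refine ⟨R (0, 0) + C * (q : ℝ) ^ 2 * Bs, add_nonneg (hR0 _) (by positivity), fun T hT => ?_⟩
  -- the map to the pairs and the common factors
  obtain ⟨T', hT'⟩ : ∃ T' : ℕ, T' = q * T := ⟨_, rfl⟩
  have hT'1 : 1 ≤ T' := by
    rw [hT', hq]
    exact Nat.mul_pos (by omega) hT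
  set P := (Box T).filter (fun t : ℤ × ℤ => hv n f t.1 t.2 ≠ 0) with hP
  set gf : ℤ × ℤ → ℕ := fun t => Int.gcd t.2 (t.1 - c * t.2) with hgf
  have hfib : ∀ g ∈ Icc 1 T', ∑ t ∈ P.filter (fun t => gf t = g), R t ≤
      C * Am ^ om (g : ℤ) * ((T' / g : ℕ) : ℝ) ^ 2 := by
    intro g hg
    obtain ⟨hg1, hg2⟩ := mem_Icc.1 hg
    have hg0 : (g : ℤ) ≠ 0 := by exact_mod_cast (by omega : g ≠ 0)
    have hTg : 1 ≤ T' / g := Nat.div_pos hg2 hg1
    have h1 := hC ((g : ℤ) ^ (D₁.natDegree % 2)) (T' / g) (pow_ne_zero _ hg0) hTg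
    have h2 : ∑ t ∈ P.filter (fun t => gf t = g), R t ≤
        ∑ t ∈ (Box (T' / g)).filter (fun t : ℤ × ℤ => IsCoprime t.1 t.2 ∧
          hv D₁.natDegree D₁ t.1 t.2 ≠ 0),
          SN ((![e2 - e1, e3 - e1, e2 - e3] : Fin 3 → ℤ) 0 *
            ((g : ℤ) ^ (D₁.natDegree % 2) * hv D₁.natDegree D₁ t.1 t.2))
          ((![e2 - e1, e3 - e1, e2 - e3] : Fin 3 → ℤ) 1 *
            ((g : ℤ) ^ (D₁.natDegree % 2) * hv D₁.natDegree D₁ t.1 t.2)) ^ k := by
      have hdv : ∀ t ∈ P.filter (fun t => gf t = g), (g : ℤ) ∣ t.2 ∧ (g : ℤ) ∣ t.1 - c * t.2 ∧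
          t = ((g : ℤ) * ((t.1 - c * t.2) / g) + c * ((g : ℤ) * (t.2 / g)), (g : ℤ) * (t.2 / g)) := by
        intro t ht
        have h3 := (mem_filter.1 ht).2
        have h4 : (g : ℤ) ∣ t.2 := by rw [← h3]; exact Int.gcd_dvd_left _ _
        have h5 : (g : ℤ) ∣ t.1 - c * t.2 := by rw [← h3]; exact Int.gcd_dvd_right _ _
        refine ⟨h4, h5, ?_⟩
        rw [Int.mul_ediv_cancel' h4, Int.mul_ediv_cancel' h5]
        ext
        · simp
        · rfl
      refine sum_le_inj (fun t : ℤ × ℤ => (t.2 / g, (t.1 - c * t.2) / g)) ?_ ?_ ?_ ?_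
      · intro t ht
        obtain ⟨d1, d2, d3⟩ := hdv t ht
        have h3 := (mem_filter.1 ht).2
        obtain ⟨h4, h5⟩ := mem_filter.1 (mem_filter.1 ht).1
        have h6 := mem_Box.1 h4
        rw [d3] at h5
        obtain ⟨h7, _⟩ := hterm g (t.2 / g) ((t.1 - c * t.2) / g) h5
        refine mem_filter.2 ⟨mem_Box.2 ⟨?_, ?_⟩, ?_, h7⟩
        · simp only
          rw [Int.natAbs_ediv_of_dvd d1, Int.natAbs_natCast]
          apply Nat.div_le_div_right
          refine h6.2.trans ?_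
          rw [hT', hq]
          exact Nat.le_mul_of_pos_left _ (by omega)
        · simp only
          rw [Int.natAbs_ediv_of_dvd d2, Int.natAbs_natCast]
          apply Nat.div_le_div_right
          rw [hT', hq]
          have h8 : (t.1 - c * t.2).natAbs ≤ t.1.natAbs + (c * t.2).natAbs :=
            Int.natAbs_sub_le _ _
          rw [Int.natAbs_mul] at h8
          have h9 : c.natAbs * t.2.natAbs ≤ c.natAbs * T := Nat.mul_le_mul_left _ h6.2
          have h10 := h6.1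
          rw [add_mul, one_mul]
          omega
        · simp only
          rw [Int.isCoprime_iff_gcd_eq_one]
          have h8 := Int.gcd_div_gcd_div_gcd (i := t.2) (j := t.1 - c * t.2) (by
            show 0 < gf t
            omega)
          have h9 : ((Int.gcd t.2 (t.1 - c * t.2) : ℕ) : ℤ) = g := by exact_mod_cast h3
          rwa [h9] at h8
      · intro t ht t' ht' htt
        obtain ⟨_, _, d3⟩ := hdv t ht
        obtain ⟨_, _, d3'⟩ := hdv t' ht'
        simp only [Prod.mk.injEq] at htt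
        rw [d3, d3', htt.1, htt.2]
      · intro t ht
        obtain ⟨d1, d2, d3⟩ := hdv t ht
        obtain ⟨h4, h5⟩ := mem_filter.1 (mem_filter.1 ht).1
        rw [d3] at h5
        obtain ⟨_, h7⟩ := hterm g (t.2 / g) ((t.1 - c * t.2) / g) h5
        rw [← d3] at h7
        exact h7
      · intro t
        exact pow_nonneg (SN_nonneg _ _) _
    refine h2.trans (h1.trans ?_)
    apply mul_le_mul_of_nonneg_right _ (by positivity)
    exact mul_le_mul_of_nonneg_left (hom g hg1) hC0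
  have hmem : ∀ t ∈ P, gf t ∈ insert 0 (Icc 1 T') := by
    intro t ht
    rw [mem_insert, mem_Icc]
    rcases Nat.eq_zero_or_pos (gf t) with h0 | h0
    · exact Or.inl h0
    right
    refine ⟨h0, ?_⟩
    have h6 := mem_Box.1 (mem_filter.1 ht).1
    by_cases h2 : t.2 = 0
    · have h3 : gf t = t.1.natAbs := by
        rw [hgf]
        simp [h2]
      rw [h3, hT', hq]
      exact h6.1.trans (Nat.le_mul_of_pos_left _ (by omega))
    · have h3 : gf t ≤ t.2.natAbs := by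
        apply Nat.le_of_dvd (Int.natAbs_pos.2 h2)
        exact Int.natCast_dvd.1 (Int.gcd_dvd_left _ _)
      refine h3.trans (h6.2.trans ?_)
      rw [hT', hq]
      exact Nat.le_mul_of_pos_left _ (by omega)
  have hsum : ∑ t ∈ P, R t = ∑ g ∈ insert 0 (Icc 1 T'), ∑ t ∈ P.filter (fun t => gf t = g), R t :=
    (sum_fiberwise_of_maps_to hmem _).symm
  have hzero : ∑ t ∈ P.filter (fun t => gf t = 0), R t ≤ R (0, 0) := by
    have h1 : P.filter (fun t => gf t = 0) ⊆ {(0, 0)} := by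
      intro t ht
      have h2 := (mem_filter.1 ht).2
      rw [hgf] at h2
      simp only at h2
      rw [Int.gcd_eq_zero_iff] at h2
      rw [mem_singleton]
      ext
      · have h3 := h2.2
        rw [h2.1] at h3
        simpa using h3
      · exact h2.1
    refine (sum_le_sum_of_subset_of_nonneg h1 fun t _ _ => hR0 t).trans ?_
    rw [sum_singleton]
  rw [hsum, sum_insert (by simp), add_mul]
  have hTr : (1 : ℝ) ≤ (T : ℝ) ^ 2 := one_le_pow₀ (by exact_mod_cast hT)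
  refine add_le_add (hzero.trans (le_mul_of_one_le_right (hR0 _) hTr)) ?_
  have h1 : ∑ g ∈ Icc 1 T', ∑ t ∈ P.filter (fun t => gf t = g), R t ≤
      ∑ g ∈ Icc 1 T', C * (T' : ℝ) ^ 2 * (Am ^ om (g : ℤ) / (g : ℝ) ^ 2) := by
    refine sum_le_sum fun g hg => (hfib g hg).trans ?_
    have h2 : ((T' / g : ℕ) : ℝ) ≤ (T' : ℝ) / g := Nat.cast_div_le
    have h3 : ((T' / g : ℕ) : ℝ) ^ 2 ≤ ((T' : ℝ) / g) ^ 2 := pow_le_pow_left₀ (Nat.cast_nonneg _) h2 2
    have h4 : 0 ≤ C * Am ^ om (g : ℤ) := by positivity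
    refine (mul_le_mul_of_nonneg_left h3 h4).trans (le_of_eq ?_)
    rw [div_pow]
    ring
  refine h1.trans ?_
  rw [← mul_sum]
  have h2 := hBs T'
  have h3 : (T' : ℝ) = q * T := by rw [hT']; push_cast; ring
  rw [h3]
  calc C * ((q : ℝ) * T) ^ 2 * ∑ g ∈ Icc 1 T', Am ^ om (g : ℤ) / (g : ℝ) ^ 2 ≤
      C * ((q : ℝ) * T) ^ 2 * Bs := mul_le_mul_of_nonneg_left h2 (by positivity)
    _ = _ := by ring

end Pool.Agent.K7.H54.SG
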