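import Pool.Agent.K7.H54.SG.Line2
import Pool.Agent.K7.H54.HR.Cnt

/-!
# Project SG: the count of the coprime pairs in a box
-/

set_option autoImplicit false
set_option linter.all false

namespace Pool.Agent.K7.H54.SG

open Finset Pool.Agent.W262.RK Pool.Agent.W307.RT Pool.Agent.TH841.PT Pool.Agent.R421.HF
open Pool.Agent.Y515.Z8 (sum_w)

variable {J Θ : Type} [Fintype J] [DecidableEq J] [Fintype Θ] [DecidableEq Θ]

/-- the lower bound of the normalisation -/
lemma E_ge {D : SFam J Θ} (hD : D.OK) {z y : ℕ} (hzy : z < y) (hz : 1 ≤ z) :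
    1 ≤ D.E z y * (y : ℝ) ^ D.c := by
  have hy1 : 1 ≤ y := by omega
  have hy0 : (0 : ℝ) < y := by exact_mod_cast hy1
  have h1 : ∑ p ∈ PS z y, (D.nt p : ℝ) / p ≤ D.c * Real.log y := by
    have h2 : ∑ p ∈ PS z y, (D.nt p : ℝ) / p ≤ D.c * ∑ p ∈ PS z y, (1 : ℝ) / p := by
      rw [mul_sum]
      refine sum_le_sum fun p _ => ?_
      rw [mul_one_div]
      apply div_le_div_of_nonneg_right _ (Nat.cast_nonneg p)
      exact_mod_cast hD.nrs p
    refine h2.trans (mul_le_mul_of_nonneg_left ?_ (Nat.cast_nonneg _))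
    have h3 : ∑ p ∈ PS z y, (1 : ℝ) / p ≤ ∑ p ∈ Icc 2 y, (1 : ℝ) / p := by
      refine sum_le_sum_of_subset_of_nonneg ?_ fun p _ _ => by positivity
      intro p hp
      have := mem_PS.1 hp
      rw [mem_Icc]
      omega
    refine h3.trans ?_
    have h4 := harmonic_le_one_add_log y
    have h5 : ((harmonic y : ℚ) : ℝ) = 1 + ∑ p ∈ Icc 2 y, (1 : ℝ) / p := by
      rw [harmonic_eq_sum_Icc]
      push_cast
      have e : Icc 1 y = insert 1 (Icc 2 y) := by
        ext n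
        rw [mem_insert, mem_Icc, mem_Icc]
        omega
      rw [e, sum_insert (by simp)]
      simp [one_div]
    linarith
  unfold SFam.E
  have h6 : (y : ℝ) ^ D.c = Real.exp (D.c * Real.log y) := by
    rw [← Real.log_pow, Real.exp_log (pow_pos hy0 _)]
  rw [h6, ← Real.exp_add]
  apply Real.one_le_exp
  linarith

section

variable {z y Y : ℕ} {s v u : J × Θ → ℕ}

/-- the pairs on the line `w = 0` -/
lemma smallG {D : SFam J Θ} (hD : D.OK) {a b h : ℤ} {E : Finset ℕ}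
    (hz : D.z1 * (D.κ.natAbs + 1) ^ D.dg ≤ z)
    (hzy : z < y) (hs : s ∈ Tup (J × Θ) z y) (hv : v ∈ Tup (J × Θ) z y)
    (hu : u ∈ Tup (J × Θ) y Y) (g : GG D h z y s v u E a b)
    (hab : (a = 1 ∧ b = D.κ) ∨ (a = -1 ∧ b = -D.κ)) :
    (∀ i, s i = 1) ∧ (∀ i, v i = 1) ∧ ∀ i, u i = 1 := by
  have hs' := (Pool.Agent.W372.RK2.mem_Tup'.1 hs).1
  have hv' := (Pool.Agent.W372.RK2.mem_Tup'.1 hv).1
  have hu' := (Pool.Agent.W372.RK2.mem_Tup'.1 hu).1
  have hF : ∀ j, (D.F a b j).natAbs ≤ z := by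
    intro j
    refine le_trans (hD.sz (D.κ.natAbs + 1) a b ?_ ?_ (by omega) j) hz
    · rcases hab with ⟨rfl, rfl⟩ | ⟨rfl, rfl⟩ <;> simp
    · rcases hab with ⟨rfl, rfl⟩ | ⟨rfl, rfl⟩ <;> simp
  have hno : ∀ p : ℕ, z < p → ∀ j, ¬ (p : ℤ) ∣ D.F a b j := by
    intro p hp j hd
    have h1 := Nat.le_of_dvd (Int.natAbs_pos.2 (g.ne j)) (Int.natCast_dvd.1 hd)
    have h2 := hF j
    omega
  refine ⟨fun i => ?_, fun i => ?_, fun i => ?_⟩
  · rw [Nat.eq_one_iff_not_exists_prime_dvd]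
    intro p hp hpd
    have f := g.fs hp hpd
    exact hno p (mem_PS.1 f.1).1.1 _ f.2.1
  · rw [Nat.eq_one_iff_not_exists_prime_dvd]
    intro p hp hpd
    have f := g.fv hp hpd
    exact hno p (mem_PS.1 f.1).1.1 _ ((dvd_pow_self (p : ℤ) two_ne_zero).trans f.2.1)
  · rw [Nat.eq_one_iff_not_exists_prime_dvd]
    intro p hp hpd
    have f := g.fu hzy hu hp hpd
    exact hno p (hzy.trans f.1) _ f.2.1

end

/-- the weight of the tuples -/
noncomputable def RWG (D : SFam J Θ) (s v u : J × Θ → ℕ) : ℝ :=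
  D.hw s * (∏ i, gp (D.g i) D.c (s i)) * (∏ i, gp (D.g i) D.c (v i) / v i) *
        (∏ i, (D.c : ℝ) ^ (u i).primeFactors.card / (u i : ℝ))

lemma RWG_nonneg {D : SFam J Θ} {z y Y : ℕ} (hz : D.c < z) {s v u : J × Θ → ℕ}
    (hs : ∀ i, s i ∈ (PP z y).divisors)
    (hv : ∀ i, v i ∈ (PP z y).divisors) : 0 ≤ RWG D s v u := by
  unfold RWG
  refine mul_nonneg (mul_nonneg (mul_nonneg (D.hw_nonneg s)
    (prod_nonneg fun i _ => gp_nonnegG hz i (hs i)))
    (prod_nonneg fun i _ => div_nonneg (gp_nonnegG hz i (hv i)) (Nat.cast_nonneg _)))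
    (prod_nonneg fun i _ => div_nonneg (pow_nonneg (Nat.cast_nonneg _) _) (Nat.cast_nonneg _))

lemma RWG_one {D : SFam J Θ} {s v u : J × Θ → ℕ} (hs : ∀ i, s i = 1) (hv : ∀ i, v i = 1)
    (hu : ∀ i, u i = 1) : RWG D s v u = 1 := by
  unfold RWG gp SFam.hw
  simp [hs, hv, hu]

lemma gw_fac {c z : ℕ} (hz : c < z) {p : ℕ} (hp : z < p) : 1 ≤ (p : ℝ) / ((p : ℝ) - c) := by
  have : (c : ℝ) < p := by exact_mod_cast (by omega : c < p)
  rw [one_le_div (by linarith)]
  have : (0 : ℝ) ≤ c := Nat.cast_nonneg _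
  linarith

lemma gw_one_le {c z : ℕ} (hz : c < z) (x : ℤ) : 1 ≤ gw c z x := by
  unfold gw
  have : ∀ p ∈ x.natAbs.primeFactors.filter (fun p => z < p),
      (1 : ℝ) ≤ (p : ℝ) / ((p : ℝ) - c) := fun p hp => gw_fac hz (mem_filter.1 hp).2
  calc (1 : ℝ) = ∏ p ∈ x.natAbs.primeFactors.filter (fun p => z < p), (1 : ℝ) := by simp
    _ ≤ _ := Finset.prod_le_prod (fun _ _ => zero_le_one) this

lemma gw_mul_le {c z : ℕ} (hz : c < z) {x y : ℤ} (hx : x ≠ 0) (hy : y ≠ 0) :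
    gw c z (x * y) ≤ gw c z x * gw c z y := by
  have h0 := gw_nonneg (c := c) (z := z) hz
  unfold gw
  have e : (x * y).natAbs.primeFactors.filter (fun p => z < p) =
      x.natAbs.primeFactors.filter (fun p => z < p) ∪
        (y.natAbs.primeFactors.filter (fun p => z < p) \
          x.natAbs.primeFactors.filter (fun p => z < p)) := by
    rw [Int.natAbs_mul, Nat.primeFactors_mul (Int.natAbs_ne_zero.2 hx) (Int.natAbs_ne_zero.2 hy),
      filter_union, union_sdiff_self_eq_union]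
  rw [e, prod_union disjoint_sdiff]
  apply mul_le_mul_of_nonneg_left _ (h0 x)
  rw [← sdiff_inter_self_left, ← prod_sdiff (inter_subset_left :
    (y.natAbs.primeFactors.filter (fun p => z < p)) ∩
      (x.natAbs.primeFactors.filter (fun p => z < p)) ⊆ _)]
  have h1 : ∀ S : Finset ℕ, S ⊆ y.natAbs.primeFactors.filter (fun p => z < p) →
      (1 : ℝ) ≤ ∏ p ∈ S, (p : ℝ) / ((p : ℝ) - c) := by
    intro S hS
    have h2 : ∀ p ∈ S, (1 : ℝ) ≤ (p : ℝ) / ((p : ℝ) - c) :=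
      fun p hp => gw_fac hz (mem_filter.1 (hS hp)).2
    calc (1 : ℝ) = ∏ p ∈ S, (1 : ℝ) := by simp
      _ ≤ _ := Finset.prod_le_prod (fun _ _ => zero_le_one) h2
  exact le_mul_of_one_le_right (le_trans zero_le_one (h1 _ sdiff_subset))
    (h1 _ inter_subset_left)

attribute [local irreducible] RWG

open Classical in
/-- CNT -/
theorem cntG (D : SFam J Θ) (hD : D.OK) (z : ℕ) (hz : D.z1 * (D.κ.natAbs + 1) ^ D.dg ≤ z)
    (hz1 : D.z1 ≤ z) (hzc : 2 * D.c + 2 ≤ z) :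
    ∃ (C : ℝ) (K y0 : ℕ), 0 ≤ C ∧ 1 ≤ K ∧
    ∀ X y Y : ℕ, y0 ≤ y → z < y → y ^ K ≤ X →
    ∀ s ∈ Tup (J × Θ) z y, ∀ v ∈ Tup (J × Θ) z y, ∀ u ∈ Tup (J × Θ) y Y,
    (∏ i, s i * v i * u i) ^ 8 ≤ X → ∀ (E : Finset ℕ) (h : ℤ), h ≠ 0 →
      (((Box X).filter (fun t : ℤ × ℤ => GG D h z y s v u E t.1 t.2)).card : ℝ) ≤
        C * X ^ 2 * RWG D s v u * D.E z y * gw D.c z h := by
  have hcz : D.c < z := by omega
  obtain ⟨C, K, y0, hC, hK, hfix⟩ := fix_leG D hD z hz1 hzc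
  obtain ⟨CA, hCA, hav⟩ := Pool.Agent.W216.RT.AVH.avh D.c z hzc
  obtain ⟨q, hq⟩ : ∃ q : ℕ, q = D.κ.natAbs + 1 := ⟨_, rfl⟩
  refine ⟨C * 3 * (2 * (CA * q)) + 2, K + D.c, y0, by positivity, by omega, ?_⟩
  intro X y Y hy0 hzy hX s hs v hv u hu hsvu E h hh
  have hs' := (Pool.Agent.W372.RK2.mem_Tup'.1 hs).1
  have hv' := (Pool.Agent.W372.RK2.mem_Tup'.1 hv).1
  have hu' := (Pool.Agent.W372.RK2.mem_Tup'.1 hu).1
  have hy1 : 1 ≤ y := by omega
  have hX1 : 1 ≤ X := le_trans (Nat.one_le_pow _ _ hy1) hX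
  have hR := RWG_nonneg (Y := Y) (u := u) hcz hs' hv'
  have hE0 : 0 < D.E z y := Real.exp_pos _
  set gh : ℝ := gw D.c z h with hgh
  have hgh1 : 1 ≤ gh := gw_one_le hcz h
  have hgh0 : 0 ≤ gh := by linarith
  set X' : ℕ := 2 * X + 1 with hX'
  set N : ℤ := (X : ℤ) + 1 with hN
  set R := RWG D s v u with hRdef
  set T := (Box X).filter (fun t : ℤ × ℤ => GG D h z y s v u E t.1 t.2) with hT
  have hTG : ∀ t ∈ T, (t.1.natAbs ≤ X ∧ t.2.natAbs ≤ X) ∧ GG D h z y s v u E t.1 t.2 := by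
    intro t ht
    rw [hT, mem_filter, mem_Box] at ht
    exact ht
  have hg0 : ∀ n : ℕ, 0 ≤ ∏ p ∈ n.primeFactors.filter (fun p => z < p),
        (p : ℝ) / ((p : ℝ) - (D.c : ℝ)) := by
    intro n
    refine prod_nonneg fun p hp => ?_
    have : (D.c : ℝ) < p := by exact_mod_cast (by have := (mem_filter.1 hp).2; omega : D.c < p)
    exact div_nonneg (Nat.cast_nonneg _) (by linarith)
  have hwle : ∀ t ∈ T, (t.2 - D.κ * t.1).natAbs ≤ q * X := by
    intro t ht
    have b := (hTG t ht).1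
    have h1 : (t.2 - D.κ * t.1).natAbs ≤ t.2.natAbs + (D.κ * t.1).natAbs := Int.natAbs_sub_le _ _
    rw [Int.natAbs_mul] at h1
    have h2 : D.κ.natAbs * t.1.natAbs ≤ D.κ.natAbs * X := Nat.mul_le_mul_left _ b.1
    rw [hq, add_mul, one_mul]
    omega
  -- the bound for a fixed second variable
  have hfib : ∀ w ∈ (Icc (-((q * X : ℕ) : ℤ)) ((q * X : ℕ) : ℤ)).filter (fun w => w ≠ 0),
      ((T.filter (fun t : ℤ × ℤ => t.2 - D.κ * t.1 = w)).card : ℝ) ≤
      (C * (3 * X) * R * D.E z y * gh) *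
        (fun n : ℕ => ∏ p ∈ n.primeFactors.filter (fun p => z < p),
        (p : ℝ) / ((p : ℝ) - ((D.c : ℕ) : ℝ))) w.natAbs := by
    intro w hw
    have hw0 : w ≠ 0 := (mem_filter.1 hw).2
    have h1 := hfix X' y Y hy0 hzy
      ((Nat.pow_le_pow_right hy1 (by omega)).trans (hX.trans (by omega))) s hs v hv u hu
      (hsvu.trans (by omega)) E w N h hw0 hh
    have h2 : (T.filter (fun t : ℤ × ℤ => t.2 - D.κ * t.1 = w)).card ≤
        ((Icc 1 X').filter (fun t : ℕ =>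
          GG D h z y s v u E ((t : ℤ) - N) (w + D.κ * ((t : ℤ) - N)))).card := by
      apply card_le_card_of_injOn (fun t : ℤ × ℤ => (t.1 + N).toNat)
      · intro t ht
        have ht' := mem_filter.1 (mem_coe.1 ht)
        obtain ⟨⟨b1, b2⟩, g⟩ := hTG t ht'.1
        have e : (((t.1 + N).toNat : ℕ) : ℤ) = t.1 + N := Int.toNat_of_nonneg (by omega)
        have e0 : 1 ≤ (t.1 + N).toNat ∧ (t.1 + N).toNat ≤ X' := by
          rw [hN, hX']
          constructor <;> omega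
        rw [mem_coe, mem_filter, mem_Icc, e]
        refine ⟨e0, ?_⟩
        have e2 : t.1 + N - N = t.1 := by ring
        have e3 : w + D.κ * t.1 = t.2 := by rw [← ht'.2]; ring
        rw [e2, e3]
        exact g
      · intro a ha b hb hab
        have ha' := mem_filter.1 (mem_coe.1 ha)
        have hb' := mem_filter.1 (mem_coe.1 hb)
        have ba := (hTG a ha'.1).1
        have bb := (hTG b hb'.1).1
        simp only at hab
        have e1 : a.1 = b.1 := by omega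
        refine Prod.ext e1 ?_
        have h3 := ha'.2
        have h4 := hb'.2
        rw [e1] at h3
        linarith
    refine (Nat.cast_le.2 h2).trans (h1.trans ?_)
    have e4 : C * (X' : ℝ) * D.hw s * (∏ i, gp (D.g i) D.c (s i)) *
        (∏ i, gp (D.g i) D.c (v i) / v i) *
        (∏ i, (D.c : ℝ) ^ (u i).primeFactors.card / (u i : ℝ)) = C * X' * R := by
      rw [hRdef]
      unfold RWG
      ring
    rw [e4]
    have e5 : (C * (3 * X) * R * D.E z y * gh) *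
        (fun n : ℕ => ∏ p ∈ n.primeFactors.filter (fun p => z < p),
        (p : ℝ) / ((p : ℝ) - ((D.c : ℕ) : ℝ))) w.natAbs =
        (C * (3 * X) * R * D.E z y) * (gw D.c z w * gh) := by
      unfold gw
      ring
    rw [e5]
    refine mul_le_mul ?_ (gw_mul_le hcz hw0 hh) (gw_nonneg hcz _)
      (mul_nonneg (mul_nonneg (mul_nonneg hC (by positivity)) hR) hE0.le)
    apply mul_le_mul_of_nonneg_right _ hE0.le
    apply mul_le_mul_of_nonneg_right _ hR
    apply mul_le_mul_of_nonneg_left _ hC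
    have : X' ≤ 3 * X := by omega
    exact_mod_cast this
  -- the part with `w = 0`
  have hzero : ((T.filter (fun t : ℤ × ℤ => t.2 - D.κ * t.1 = 0)).card : ℝ) ≤
      2 * X ^ 2 * R * D.E z y * gh := by
    have hsub : T.filter (fun t : ℤ × ℤ => t.2 - D.κ * t.1 = 0) ⊆ {(1, D.κ), (-1, -D.κ)} := by
      intro t ht
      have ht' := mem_filter.1 ht
      have g := (hTG t ht'.1).2
      obtain ⟨a, b⟩ := t
      simp only at ht' g
      have hb : b = D.κ * a := by linarith [ht'.2]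
      have h1 := g.cop
      rw [hb] at h1
      have h2 : IsUnit a := h1.isUnit_of_dvd' (dvd_refl a) (Dvd.intro_left _ rfl)
      rw [Int.isUnit_iff] at h2
      rw [mem_insert, mem_singleton]
      rcases h2 with h2 | h2
      · left
        rw [hb, h2, mul_one]
      · right
        rw [hb, h2, mul_neg_one]
    rcases (T.filter (fun t : ℤ × ℤ => t.2 - D.κ * t.1 = 0)).eq_empty_or_nonempty with
      he | ⟨t, ht⟩
    · rw [he, card_empty, Nat.cast_zero]
      exact mul_nonneg (mul_nonneg (mul_nonneg (by positivity) hR) hE0.le) hgh0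
    · have ht1 := hsub ht
      have g := (hTG t (mem_filter.1 ht).1).2
      rw [mem_insert, mem_singleton] at ht1
      have h3 : (t.1 = 1 ∧ t.2 = D.κ) ∨ (t.1 = -1 ∧ t.2 = -D.κ) := by
        rcases ht1 with h | h
        · left; rw [h]; exact ⟨rfl, rfl⟩
        · right; rw [h]; exact ⟨rfl, rfl⟩
      obtain ⟨q1, q2, q3⟩ := smallG hD hz hzy hs hv hu g h3
      have hR1 : R = 1 := RWG_one q1 q2 q3
      have hc : (T.filter (fun t : ℤ × ℤ => t.2 - D.κ * t.1 = 0)).card ≤ 2 :=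
        (card_le_card hsub).trans (card_le_two)
      have hc' : ((T.filter (fun t : ℤ × ℤ => t.2 - D.κ * t.1 = 0)).card : ℝ) ≤ 2 := by
        exact_mod_cast hc
      refine hc'.trans ?_
      rw [hR1, mul_one]
      have h4 := E_ge hD hzy (by omega)
      have h5 : (y : ℝ) ^ D.c ≤ (X : ℝ) ^ 2 := by
        have h6 : y ^ D.c ≤ X := (Nat.pow_le_pow_right hy1 (by omega)).trans hX
        have h7 : X ≤ X ^ 2 := Nat.le_self_pow two_ne_zero X
        exact_mod_cast h6.trans h7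
      have h6 : 1 ≤ D.E z y * (X : ℝ) ^ 2 :=
        h4.trans (mul_le_mul_of_nonneg_left h5 hE0.le)
      have h7 : 1 ≤ D.E z y * (X : ℝ) ^ 2 * gh := one_le_mul_of_one_le_of_one_le h6 hgh1
      linarith
  -- the sum
  have hsplit : (T.card : ℝ) ≤
      ∑ w ∈ (Icc (-((q * X : ℕ) : ℤ)) ((q * X : ℕ) : ℤ)).filter (fun w => w ≠ 0),
        ((T.filter (fun t : ℤ × ℤ => t.2 - D.κ * t.1 = w)).card : ℝ) +
      ((T.filter (fun t : ℤ × ℤ => t.2 - D.κ * t.1 = 0)).card : ℝ) := by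
    have h1 : T.card = ∑ w ∈ Icc (-((q * X : ℕ) : ℤ)) ((q * X : ℕ) : ℤ),
        (T.filter (fun t : ℤ × ℤ => t.2 - D.κ * t.1 = w)).card := by
      apply card_eq_sum_card_fiberwise (f := fun t : ℤ × ℤ => t.2 - D.κ * t.1)
      intro t ht
      have b := hwle t (mem_coe.1 ht)
      rw [mem_coe, mem_Icc]
      simp only
      constructor <;> omega
    rw [h1, Nat.cast_sum, ← sum_filter_add_sum_filter_not _ (fun w : ℤ => w ≠ 0)]
    apply add_le_add le_rfl
    have h2 : (Icc (-((q * X : ℕ) : ℤ)) ((q * X : ℕ) : ℤ)).filter (fun w => ¬ w ≠ 0) ⊆ {0} := by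
      intro w hw
      rw [mem_filter, not_not] at hw
      rw [mem_singleton]
      exact hw.2
    refine (sum_le_sum_of_subset_of_nonneg h2 (fun _ _ _ => Nat.cast_nonneg _)).trans ?_
    rw [sum_singleton]
  have hsum : ∑ w ∈ (Icc (-((q * X : ℕ) : ℤ)) ((q * X : ℕ) : ℤ)).filter (fun w => w ≠ 0),
        ((T.filter (fun t : ℤ × ℤ => t.2 - D.κ * t.1 = w)).card : ℝ) ≤
      (C * (3 * X) * R * D.E z y * gh) * (2 * (CA * (q * X))) := by
    refine (sum_le_sum hfib).trans ?_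
    rw [← mul_sum]
    apply mul_le_mul_of_nonneg_left _
      (mul_nonneg (mul_nonneg (mul_nonneg (mul_nonneg hC (by positivity)) hR) hE0.le) hgh0)
    refine (sum_w _ hg0 (q * X)).trans ?_
    apply mul_le_mul_of_nonneg_left _ zero_le_two
    have := hav (q * X)
    push_cast at this ⊢
    exact this
  have e : (C * 3 * (2 * (CA * q)) + 2) * X ^ 2 * R * D.E z y * gh =
      (C * (3 * X) * R * D.E z y * gh) * (2 * (CA * (q * X))) +
        2 * X ^ 2 * R * D.E z y * gh := by ring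
  rw [e]
  linarith

end Pool.Agent.K7.H54.SG
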