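import Pool.Agent.K7.H54.HR.Fam

/-!
# Project SG: families of values of binary forms, with types and signs

The primes that divide a value of the form `j` have a type (an element of `Θ`), or no type: then
they are not counted. The forms with `sc j = true` have signs at the primes that divide their value
exactly once. The parameter `h` is an integer; its prime factors are not counted.
-/

set_option autoImplicit false
set_option linter.all false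

namespace Pool.Agent.K7.H54.SG

open Finset Pool.Agent.W262.RK Pool.Agent.W307.RT Pool.Agent.TH841.PT
open Pool.Agent.K7.H54.HR (cop_nd)

variable {J Θ : Type} [Fintype J] [DecidableEq J] [Fintype Θ] [DecidableEq Θ]

/-- the part of the value `f i.1` composed of the primes `p > z` of the type `i.2` -/
noncomputable def prw (ty : J → ℕ → Option Θ) (z : ℕ) (f : J → ℤ) (i : J × Θ) : ℤ :=
  (partN (f i.1).natAbs (fun p => z < p ∧ ty i.1 p = some i.2) : ℕ)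

section

variable {ty : J → ℕ → Option Θ} {z : ℕ} {f : J → ℤ}

omit [Fintype J] [DecidableEq J] [Fintype Θ] in
lemma prw_pow (h0 : ∀ j, f j ≠ 0) (i : J × Θ) {p : ℕ} (hp : p.Prime)
    (hz : z < p) {k : ℕ} (hk : k ≠ 0) : (p : ℤ) ^ k ∣ prw ty z f i ↔
      (p : ℤ) ^ k ∣ f i.1 ∧ ty i.1 p = some i.2 := by
  have h1 : ∀ x : ℤ, (p : ℤ) ^ k ∣ x ↔ p ^ k ∣ x.natAbs := by
    intro x
    rw [← Int.natCast_dvd]
    push_cast
    rfl
  unfold prw
  rw [h1, h1, Int.natAbs_natCast]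
  by_cases hty : ty i.1 p = some i.2
  · rw [partN_pow (Int.natAbs_ne_zero.2 (h0 _)) hp ⟨hz, hty⟩]
    exact ⟨fun h2 => ⟨h2, hty⟩, fun h2 => h2.1⟩
  · constructor
    · intro h2
      exact absurd (partN_of hp ((dvd_pow_self p hk).trans h2)).2 hty
    · intro h2
      exact absurd h2.2 hty

omit [Fintype J] [DecidableEq J] [Fintype Θ] in
lemma prw_dvd (h0 : ∀ j, f j ≠ 0) (i : J × Θ) {p : ℕ}
    (hp : p.Prime) (hz : z < p) : (p : ℤ) ∣ prw ty z f i ↔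
      (p : ℤ) ∣ f i.1 ∧ ty i.1 p = some i.2 := by
  have := prw_pow (ty := ty) h0 i hp hz one_ne_zero
  rwa [pow_one] at this

omit [Fintype J] [DecidableEq J] [Fintype Θ] in
lemma prw_of (h0 : ∀ j, f j ≠ 0) (i : J × Θ) {p : ℕ}
    (hp : p.Prime) (h : (p : ℤ) ∣ prw ty z f i) : z < p ∧ (p : ℤ) ∣ f i.1 ∧
      ty i.1 p = some i.2 := by
  have hz : z < p := by
    unfold prw at h
    rw [Int.natCast_dvd_natCast] at h
    exact (partN_of hp h).1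
  exact ⟨hz, (prw_dvd h0 i hp hz).1 h⟩

omit [Fintype J] [DecidableEq J] [Fintype Θ] in
lemma prw_ne (i : J × Θ) : prw ty z f i ≠ 0 := by
  unfold prw
  exact_mod_cast partN_ne _ _

omit [Fintype J] [DecidableEq J] [Fintype Θ] in
lemma prw_Gd (h0 : ∀ j, f j ≠ 0)
    (hun : ∀ p : ℕ, p.Prime → z < p → ∀ j l, (p : ℤ) ∣ f j → (p : ℤ) ∣ f l → j = l) :
    Gd z (prw ty z f) := by
  refine ⟨fun i => prw_ne i, fun p hp hzp i i' hii' => ?_⟩
  rintro ⟨h1, h2⟩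
  have e1 := prw_of h0 i hp h1
  have e2 := prw_of h0 i' hp h2
  apply hii'
  have hj := hun p hp hzp _ _ e1.2.1 e2.2.1
  refine Prod.ext hj ?_
  have h3 : some i.2 = some i'.2 := by
    rw [← e1.2.2, ← e2.2.2, hj]
  exact Option.some.inj h3

end

/-- the data of a family -/
structure SFam (J Θ : Type) where
  /-- the forms -/
  F : ℤ → ℤ → J → ℤ
  /-- the forms with signs -/
  sc : J → Bool
  /-- the slope of the lines -/
  κ : ℤ
  /-- the larger primes are good -/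
  z1 : ℕ
  /-- the bound for the number of the roots -/
  c : ℕ
  /-- the degree -/
  dg : ℕ
  /-- the types of the primes at a pair -/
  ty : J → ℕ → ℤ → ℤ → Option Θ
  /-- the normalisation of the signs -/
  sn : J → ℕ → ℤ → ℤ
  /-- the numbers of the roots of a given type -/
  nr : J × Θ → ℕ → ℕ

/-- the properties of a family -/
structure SFam.OK (D : SFam J Θ) : Prop where
  c1 : 1 ≤ D.c
  cong : ∀ (p : ℕ) (w a a' : ℤ) (j : J), (p : ℤ) ∣ a - a' →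
    (p : ℤ) ∣ D.F a (w + D.κ * a) j → (p : ℤ) ∣ D.F a' (w + D.κ * a') j
  tcong : ∀ (p : ℕ) (w a a' : ℤ) (j : J), p.Prime → D.z1 < p → (p : ℤ) ∣ a - a' →
    (p : ℤ) ∣ D.F a (w + D.κ * a) j → D.ty j p a (w + D.κ * a) = D.ty j p a' (w + D.κ * a')
  un : ∀ p : ℕ, p.Prime → D.z1 < p → ∀ a b : ℤ, ¬ ((p : ℤ) ∣ a ∧ (p : ℤ) ∣ b) → ∀ j l,
    (p : ℤ) ∣ D.F a b j → (p : ℤ) ∣ D.F a b l → j = l
  ndw : ∀ p : ℕ, p.Prime → D.z1 < p → ∀ w a, IsCoprime a (w + D.κ * a) → ∀ j,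
    (p : ℤ) ∣ D.F a (w + D.κ * a) j → ¬ (p : ℤ) ∣ w
  hens : ∀ p : ℕ, p.Prime → D.z1 < p → ∀ w a a', ¬ (p : ℤ) ∣ w → ∀ j, (p : ℤ) ∣ a - a' →
    (p : ℤ) ∣ D.F a (w + D.κ * a) j →
    (p : ℤ) ^ 2 ∣ D.F a (w + D.κ * a) j - D.F a' (w + D.κ * a') j →
    (p : ℤ) ^ 2 ∣ a - a'
  snv : ∀ (j : J) (p : ℕ) (w : ℤ), D.sn j p w = 1 ∨ D.sn j p w = -1
  card : ∀ p : ℕ, p.Prime → D.z1 < p → ∀ w N : ℤ, ¬ (p : ℤ) ∣ w → ∀ i : J × Θ,
    ((range p).filter (fun n : ℕ => (p : ℤ) ∣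
      D.F ((n : ℤ) - N) (w + D.κ * ((n : ℤ) - N)) i.1 ∧
        D.ty i.1 p ((n : ℤ) - N) (w + D.κ * ((n : ℤ) - N)) = some i.2)).card = D.nr i p
  nrs : ∀ p, ∑ i, D.nr i p ≤ D.c
  sz : ∀ (X : ℕ) (a b : ℤ), a.natAbs ≤ X → b.natAbs ≤ X → 1 ≤ X → ∀ j,
    (D.F a b j).natAbs ≤ D.z1 * X ^ D.dg

open Classical in
/-- the types, with the parameter `h` -/
noncomputable def SFam.tyh (D : SFam J Θ) (h : ℤ) (j : J) (p : ℕ) (a b : ℤ) : Option Θ :=
  if (p : ℤ) ∣ h then none else D.ty j p a b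

/-- the parts -/
noncomputable def SFam.pr (D : SFam J Θ) (h : ℤ) (z : ℕ) (a b : ℤ) : J × Θ → ℤ :=
  prw (fun j p => D.tyh h j p a b) z (D.F a b)

/-- the weights -/
noncomputable def SFam.g (D : SFam J Θ) (i : J × Θ) (p : ℕ) : ℝ := (D.nr i p : ℝ)

/-- the total number of the roots -/
def SFam.nt (D : SFam J Θ) (p : ℕ) : ℕ := ∑ i, D.nr i p

lemma SFam.tyh_some {D : SFam J Θ} {h : ℤ} {j : J} {p : ℕ} {a b : ℤ} {θ : Θ} :
    D.tyh h j p a b = some θ ↔ ¬ (p : ℤ) ∣ h ∧ D.ty j p a b = some θ := by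
  unfold SFam.tyh
  split_ifs with h1
  · simp [h1]
  · simp [h1]

lemma SFam.g_nonneg (D : SFam J Θ) (i : J × Θ) (p : ℕ) : 0 ≤ D.g i p := Nat.cast_nonneg _

lemma SFam.OK.nr_le {D : SFam J Θ} (h : D.OK) (i : J × Θ) (p : ℕ) : D.nr i p ≤ D.c :=
  (single_le_sum (f := fun i => D.nr i p) (fun _ _ => Nat.zero_le _) (mem_univ i)).trans (h.nrs p)

lemma SFam.OK.g_le {D : SFam J Θ} (h : D.OK) (i : J × Θ) (p : ℕ) : D.g i p ≤ D.c := by
  unfold SFam.g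
  exact_mod_cast h.nr_le i p

/-- the product of the forms with signs -/
def SFam.m3 (D : SFam J Θ) (s : J × Θ → ℕ) : ℕ :=
  ∏ i ∈ univ.filter (fun i : J × Θ => D.sc i.1 = true), s i

/-- the negative primes -/
noncomputable def SFam.neg (D : SFam J Θ) (h : ℤ) (s : J × Θ → ℕ) (a b : ℤ) : Finset ℕ :=
  (D.m3 s).primeFactors.filter (fun p => ∃ j, D.sc j = true ∧ (p : ℤ) ∣ D.F a b j ∧
    jacobiSym (D.F a b j / p) p = - (D.sn j p (b - D.κ * a) * jacobiSym h p))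

/-- the facts about the counted pairs -/
structure GG (D : SFam J Θ) (h : ℤ) (z y : ℕ) (s v u : J × Θ → ℕ) (E : Finset ℕ) (a b : ℤ) :
    Prop where
  cop : IsCoprime a b
  ne : ∀ j, D.F a b j ≠ 0
  hs : S1 z y (D.pr h z a b) = s
  hv : S2 z y (D.pr h z a b) = v
  hu : ∀ i, (u i : ℤ) ∣ D.pr h z a b i
  hE : D.neg h s a b = E

open Pool.Agent.W29.RT (dvd_S1 dvd_S2)
open Pool.Agent.W372.RK2 (sq_pow_dvd)

/-- the residue of the quotient -/
noncomputable def wq (x : ℤ) (p : ℕ) : ℕ := ((x / (p : ℤ)) % (p : ℤ)).toNat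

lemma wq_congr {p : ℕ} (hp : 0 < p) {x x' : ℤ} (h : wq x p = wq x' p)
    (hd : (p : ℤ) ∣ x) (hd' : (p : ℤ) ∣ x') : (p : ℤ) ^ 2 ∣ x - x' := by
  have hpos : (0 : ℤ) < p := by exact_mod_cast hp
  unfold wq at h
  have h3 : (x / (p : ℤ)) % (p : ℤ) = (x' / (p : ℤ)) % (p : ℤ) := by
    have h4 := Int.emod_nonneg (x / (p : ℤ)) hpos.ne'
    have h5 := Int.emod_nonneg (x' / (p : ℤ)) hpos.ne'
    omega
  have h6 : (p : ℤ) ∣ x / (p : ℤ) - x' / (p : ℤ) := Int.ModEq.dvd (Eq.symm h3)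
  have h7 : x = p * (x / p) := (Int.mul_ediv_cancel' hd).symm
  have h8 : x' = p * (x' / p) := (Int.mul_ediv_cancel' hd').symm
  rw [h7, h8, ← mul_sub, sq]
  exact mul_dvd_mul_left _ h6

section

variable {D : SFam J Θ} {h : ℤ} {z y Y : ℕ} {s v u : J × Θ → ℕ} {E : Finset ℕ} {a b a' b' w : ℤ}

lemma GG.fs (g : GG D h z y s v u E a b) {p : ℕ} (hp : p.Prime) {i : J × Θ} (hd : p ∣ s i) :
    p ∈ PS z y ∧ (p : ℤ) ∣ D.F a b i.1 ∧ ¬ (p : ℤ) ^ 2 ∣ D.F a b i.1 ∧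
      ¬ (p : ℤ) ∣ h ∧ D.ty i.1 p a b = some i.2 := by
  rw [← g.hs] at hd
  obtain ⟨h1, h2, h3⟩ := (dvd_S1 hp).1 hd
  have hz := (mem_PS.1 h1).1.1
  have h4 := (prw_dvd g.ne i hp hz).1 h2
  unfold SFam.pr at h3
  rw [prw_pow g.ne i hp hz two_ne_zero] at h3
  have h5 := SFam.tyh_some.1 h4.2
  exact ⟨h1, h4.1, fun h5 => h3 ⟨h5, h4.2⟩, h5.1, h5.2⟩

lemma GG.fv (g : GG D h z y s v u E a b) {p : ℕ} (hp : p.Prime) {i : J × Θ} (hd : p ∣ v i) :
    p ∈ PS z y ∧ (p : ℤ) ^ 2 ∣ D.F a b i.1 ∧ ¬ (p : ℤ) ∣ h ∧ D.ty i.1 p a b = some i.2 := by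
  rw [← g.hv] at hd
  obtain ⟨h1, h3⟩ := (dvd_S2 hp).1 hd
  have hz := (mem_PS.1 h1).1.1
  unfold SFam.pr at h3
  rw [prw_pow g.ne i hp hz two_ne_zero] at h3
  have h5 := SFam.tyh_some.1 h3.2
  exact ⟨h1, h3.1, h5.1, h5.2⟩

lemma GG.fu (g : GG D h z y s v u E a b) (hzy : z < y) (hu : u ∈ Tup (J × Θ) y Y) {p : ℕ}
    (hp : p.Prime) {i : J × Θ} (hd : p ∣ u i) :
    y < p ∧ (p : ℤ) ∣ D.F a b i.1 ∧ ¬ (p : ℤ) ∣ h ∧ D.ty i.1 p a b = some i.2 := by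
  have h1 := (dv_prime ((Pool.Agent.W372.RK2.mem_Tup'.1 hu).1 i) hp hd).1
  have h2 : (p : ℤ) ∣ D.pr h z a b i := (Int.natCast_dvd_natCast.2 hd).trans (g.hu i)
  have h4 := (prw_dvd g.ne i hp (hzy.trans h1)).1 h2
  have h5 := SFam.tyh_some.1 h4.2
  exact ⟨h1, h4.1, h5.1, h5.2⟩

lemma GG.fm (g : GG D h z y s v u E a b) (hzy : z < y) (hu : u ∈ Tup (J × Θ) y Y) {p : ℕ}
    (hp : p.Prime) {i : J × Θ} (hd : p ∣ s i ^ 2 * v i ^ 2 * u i) :
    z < p ∧ (p : ℤ) ∣ D.F a b i.1 ∧ ¬ (p : ℤ) ∣ h ∧ D.ty i.1 p a b = some i.2 := by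
  rcases hp.dvd_mul.1 hd with h1 | h1
  · rcases hp.dvd_mul.1 h1 with h1 | h1
    · have h' := g.fs hp (hp.dvd_of_dvd_pow h1)
      exact ⟨(mem_PS.1 h'.1).1.1, h'.2.1, h'.2.2.2⟩
    · have h' := g.fv hp (hp.dvd_of_dvd_pow h1)
      exact ⟨(mem_PS.1 h'.1).1.1, (dvd_pow_self (p : ℤ) two_ne_zero).trans h'.2.1, h'.2.2⟩
  · have h' := g.fu hzy hu hp h1
    exact ⟨hzy.trans h'.1, h'.2⟩

lemma GG.un (g : GG D h z y s v u E a b) (hD : D.OK) (hz : D.z1 ≤ z) (hzy : z < y)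
    (hu : u ∈ Tup (J × Θ) y Y) {p : ℕ}
    (hp : p.Prime) {i l : J × Θ} (hd : p ∣ s i ^ 2 * v i ^ 2 * u i)
    (hd' : p ∣ s l ^ 2 * v l ^ 2 * u l) : i = l := by
  obtain ⟨h1, h2, -, h3⟩ := g.fm hzy hu hp hd
  obtain ⟨_, h5, -, h6⟩ := g.fm hzy hu hp hd'
  have h7 := hD.un p hp (by omega) a b (cop_nd g.cop hp) _ _ h2 h5
  refine Prod.ext h7 ?_
  have h8 : some i.2 = some l.2 := by rw [← h3, ← h6, h7]
  exact Option.some.inj h8

/-- the exponents of the moduli -/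
def SFam.ex (D : SFam J Θ) (i : J × Θ) : ℕ := if D.sc i.1 = true then 2 else 1

lemma SFam.ex_le (D : SFam J Θ) (i : J × Θ) : 1 ≤ D.ex i ∧ D.ex i ≤ 2 := by
  unfold SFam.ex
  split_ifs <;> omega

/-- two counted numbers with the same residues are congruent -/
lemma congG (hD : D.OK) (hz : D.z1 ≤ z) (hzy : z < y) (hs : s ∈ Tup (J × Θ) z y)
    (hv : v ∈ Tup (J × Θ) z y) (hu : u ∈ Tup (J × Θ) y Y)
    (g : GG D h z y s v u E a (w + D.κ * a)) (g' : GG D h z y s v u E a' (w + D.κ * a'))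
    (h1 : ∀ i, ∀ p : ℕ, p.Prime → p ∣ s i → (p : ℤ) ∣ a - a')
    (h1' : ∀ i, D.sc i.1 = true → ∀ p : ℕ, p.Prime → p ∣ s i →
      (p : ℤ) ^ 2 ∣ D.F a (w + D.κ * a) i.1 - D.F a' (w + D.κ * a') i.1)
    (h2 : ∀ i, ∀ p : ℕ, p.Prime → p ∣ v i → (p : ℤ) ∣ a - a')
    (h3 : ∀ i, ∀ p : ℕ, p.Prime → p ∣ u i → (p : ℤ) ∣ a - a') :
    ((∏ i, s i ^ D.ex i * v i ^ 2 * u i : ℕ) : ℤ) ∣ a - a' := by
  have hs' := (Pool.Agent.W372.RK2.mem_Tup'.1 hs).1
  have hv' := (Pool.Agent.W372.RK2.mem_Tup'.1 hv).1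
  have hu' := (Pool.Agent.W372.RK2.mem_Tup'.1 hu).1
  have hex : ∀ i, ∀ p : ℕ, p.Prime → p ∣ s i ^ D.ex i * v i ^ 2 * u i →
      p ∣ s i ^ 2 * v i ^ 2 * u i := by
    intro i p hp hpi
    rcases hp.dvd_mul.1 hpi with h4 | h4
    · rcases hp.dvd_mul.1 h4 with h5 | h5
      · exact (((hp.dvd_of_dvd_pow h5).pow two_ne_zero).mul_right _).mul_right _
      · exact (h5.mul_left _).mul_right _
    · exact h4.mul_left _
  rw [Nat.cast_prod]
  apply Finset.prod_dvd_of_coprime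
  · intro i _ l _ hil
    rw [Function.onFun, Nat.isCoprime_iff_coprime]
    apply Nat.coprime_of_dvd
    intro p hp hpi hpl
    exact hil (g.un hD hz hzy hu hp (hex i p hp hpi) (hex l p hp hpl))
  intro i _
  have e1 : ((s i ^ D.ex i : ℕ) : ℤ) ∣ a - a' := by
    have hq := sq_pow_dvd (dv_squarefree (hs' i)) (D.ex i) (a - a')
      (fun p hp hpd => by
        by_cases hsc : D.sc i.1 = true
        · have e : D.ex i = 2 := if_pos hsc
          rw [e]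
          have f := g.fs hp hpd
          have hzp := (mem_PS.1 f.1).1.1
          exact hD.hens p hp (by omega) w a a' (hD.ndw p hp (by omega) w a g.cop i.1 f.2.1) i.1
            (h1 i p hp hpd) f.2.1 (h1' i hsc p hp hpd)
        · have e : D.ex i = 1 := if_neg hsc
          rw [e, pow_one]
          exact h1 i p hp hpd)
    exact_mod_cast hq
  have e2 : ((v i ^ 2 : ℕ) : ℤ) ∣ a - a' := by
    have hq := sq_pow_dvd (dv_squarefree (hv' i)) 2 (a - a')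
      (fun p hp hpd => by
        have f := g.fv hp hpd
        have f' := g'.fv hp hpd
        have hzp := (mem_PS.1 f.1).1.1
        have f1 := (dvd_pow_self (p : ℤ) two_ne_zero).trans f.2.1
        exact hD.hens p hp (by omega) w a a' (hD.ndw p hp (by omega) w a g.cop i.1
          f1) i.1 (h2 i p hp hpd) f1 (dvd_sub f.2.1 f'.2.1))
    exact_mod_cast hq
  have e3 : ((u i : ℕ) : ℤ) ∣ a - a' := by
    have hq := sq_pow_dvd (dv_squarefree (hu' i)) 1 (a - a')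
      (fun p hp hpd => by
        rw [pow_one]
        exact h3 i p hp hpd)
    rwa [pow_one] at hq
  have hcop1 : IsCoprime ((s i ^ D.ex i : ℕ) : ℤ) ((v i ^ 2 : ℕ) : ℤ) := by
    rw [Nat.isCoprime_iff_coprime]
    apply Nat.coprime_of_dvd
    intro p hp hps hpv
    exact (g.fs hp (hp.dvd_of_dvd_pow hps)).2.2.1 (g.fv hp (hp.dvd_of_dvd_pow hpv)).2.1
  have hcop2 : IsCoprime ((s i ^ D.ex i * v i ^ 2 : ℕ) : ℤ) ((u i : ℕ) : ℤ) := by
    rw [Nat.isCoprime_iff_coprime]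
    apply Nat.coprime_of_dvd
    intro p hp hps hpu
    have h8 : y < p := (g.fu hzy hu hp hpu).1
    have h9 : p ≤ y := by
      rcases hp.dvd_mul.1 hps with h10 | h10
      · exact (dv_prime (hs' i) hp (hp.dvd_of_dvd_pow h10)).2
      · exact (dv_prime (hv' i) hp (hp.dvd_of_dvd_pow h10)).2
    omega
  rw [Nat.cast_mul]
  refine hcop2.mul_dvd ?_ e3
  rw [Nat.cast_mul]
  exact hcop1.mul_dvd e1 e2

end

end Pool.Agent.K7.H54.SG
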